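import Pool.Agent.R611.HM.X5

/-!
# Types over RV in a saturated 0-h-minimal field: uniqueness, exchange
-/

set_option autoImplicit false
set_option linter.unusedSectionVars false

namespace Pool.Agent.R611.HM

open FirstOrder Language Structure Set

universe u w

variable {L : FirstOrder.Language.{u, u}} {K : Type u} [L.Structure K] [Field K]
variable {Γ : Type w} [LinearOrderedCommGroupWithZero Γ] {v : Valuation K Γ}

/-- 0-h-minimality at the level of types. -/
def H0R (L : FirstOrder.Language.{u, u}) {K : Type u} [L.Structure K] [Field K]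
    {Γ : Type w} [LinearOrderedCommGroupWithZero Γ] (v : Valuation K Γ) : Prop :=
  ∀ (ι : Type) [Finite ι] (a : ι → K) (y y' : K), nr1 L v a y y' → RE L v (oc y a) (oc y' a)

theorem RE.sub {ι κ : Type} {b b' : ι → K} (h : RE L v b b') (σ : κ → ι) {c c' : κ → K}
    (hc : ∀ k, c k = b (σ k)) (hc' : ∀ k, c' k = b' (σ k)) : RE L v c c' := by
  have e1 : c = fun k => b (σ k) := funext hc
  have e2 : c' = fun k => b' (σ k) := funext hc'
  rw [e1, e2]
  exact h.comp σ

theorem RE.fn {ι : Type} [Finite ι] {a a' : ι → K} (h : RE L v a a') {f : (ι → K) → K}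
    (hf : DfF L f) : RVeq v (f a) (f a') := by
  have hP : Df L (fun w : ι ⊕ Unit → K => w (Sum.inr ()) = f (fun i => w (Sum.inl i))) :=
    hf.relabel (β := ι ⊕ Unit) (fun o : Option ι => (o.elim (Sum.inr ()) Sum.inl : ι ⊕ Unit))
  obtain ⟨z', h1, h2⟩ := h Unit _ hP (fun _ => f a) rfl
  have h3 := h1 ()
  have h4 : z' () = f a' := h2
  rwa [h4] at h3

theorem RE.rv {ι : Type} [Finite ι] {a a' : ι → K} (h : RE L v a a') (i : ι) :
    RVeq v (a i) (a' i) := h.fn (DfF.var i)

theorem RE.rvsub (hV : VF L v) {ι : Type} [Finite ι] {a a' : ι → K} (h : RE L v a a') (i j : ι) :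
    RVeq v (a i - a j) (a' i - a' j) := h.fn (hV.fsub (DfF.var i) (DfF.var j))

section

variable (hK : Satur L K) (hV : VF L v)

include hK hV

/-- uniqueness of images of algebraic points -/
theorem RE.uniq {ι : Type} [Finite ι] {b : ι → K} {c c' : K}
    (h : RE L v (oc c b) (oc c' b)) (hc : c ∈ acl L b) : c = c' := by
  obtain ⟨P, hP, hPf, hPc⟩ := acl_orbit hc
  obtain ⟨S, hS, hbS⟩ := h.exists_mv hK hV (dif_finite hPf)
  have hT := Mv.idm (L := L) (v := v) (Empty.elim : Empty → K) (dif_finite hPf)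
    (X := {c} ∪ Set.range b) ((Set.finite_singleton c).union (Set.finite_range b))
  have h1 := rig_unique hV hP hPf hS hT (subset_refl _) (subset_refl _) (b := b) (b' := b)
    (fun i => hbS (some i)) (fun i => ⟨b i, Or.inl (Or.inr (Or.inr ⟨i, rfl⟩)), rfl⟩) hPc
    (hbS none) ⟨c, Or.inl (Or.inr (Or.inl rfl)), rfl⟩
  exact h1.symm

omit hK hV in
/-- images of algebraic points are algebraic -/
theorem RE.alg {ι : Type} [Finite ι] {b b' : ι → K} {c c' : K}
    (h : RE L v (oc c b) (oc c' b')) (hc : c ∈ acl L b) : c' ∈ acl L b' := by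
  obtain ⟨P, hP, hPc⟩ := hc
  have hb : RE L v b b' := h.sub some (fun _ => rfl) (fun _ => rfl)
  exact ⟨P, FD_of_RE hb hP, h.df (P := fun w : Option ι → K =>
    P (fun i => w (some i)) (w none)) hP.1 hPc⟩

variable (h0 : H0R L v)

include h0

theorem RE.ext {ι : Type} [Finite ι] {a a' : ι → K} (h : RE L v a a') (y : K) :
    ∃ y', RE L v (oc y a) (oc y' a') := back_forth hK hV h0 h y

theorem RE.nr {ι : Type} [Finite ι] {a : ι → K} {y y' : K} (h : RE L v (oc y a) (oc y' a))
    (hy : y ∉ acl L a) : nr1 L v a y y' := by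
  intro c hc
  obtain ⟨c', h1⟩ := h.ext hK hV h0 c
  have h2 : RE L v (oc c a) (oc c' a) := h1.sub (fun o => o.elim none (fun i => some (some i)))
    (by rintro (_ | i) <;> rfl) (by rintro (_ | i) <;> rfl)
  have h3 := h2.uniq hK hV hc
  subst h3
  have h4 := h1.rvsub hV (some none) none
  change RVeq v (y - c) (y' - c) at h4
  rcases h4 with ⟨h5, _⟩ | h4
  · exact absurd (sub_eq_zero.1 h5 ▸ hc) hy
  · have e : y - c - (y' - c) = -(y' - y) := by ring
    rwa [e, Valuation.map_neg] at h4

omit h0 in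
/-- A definable property which holds on the ball next to `u` holds on a ball given by finitely
many algebraic points. -/
theorem fin_ball {ι : Type} [Finite ι] (a : ι → K) {β : Type} [Finite β]
    (Q : K → (β → K) → Prop)
    (hQ : Df L (fun w : Option β → K => Q (w none) (fun i => w (some i)))) (p : β → K) {u : K}
    (hQu : ∀ u', nr1 L v a u u' → Q u' p) :
    ∃ C : Set K, C.Finite ∧ C ⊆ acl L a ∧ ∀ u', (∀ c ∈ C, v (u' - u) < v (u - c)) → Q u' p := by
  have hvar : ∀ {β : Type} [Finite β] (i : β), DfF L (fun w : β → K => w i) :=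
    fun i => DfF.var i
  by_contra hcon
  push Not at hcon
  obtain ⟨u', h1, h2⟩ := sat_acl' (L := L) hK (α := Unit) (β := Option β) (oc u p) a
    (fun u' p' => ¬ Q (u' ()) (fun i => p' (some i)))
    (by
      refine Df.not ?_
      exact hQ.relabel (β := Unit ⊕ Option β)
        (fun o : Option β => (o.elim (Sum.inl ()) (fun j => Sum.inr (some j)) :
          Unit ⊕ Option β)))
    (fun c u' p' => v (u' () - p' none) < v (p' none - c))
    (hV.vlt (hV.fsub (hvar _) (hvar _)) (hV.fsub (hvar _) (hvar _)))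
    (by
      intro C hC hCa
      obtain ⟨u', h3, h4⟩ := hcon C hC hCa
      exact ⟨fun _ => u', h4, h3⟩)
  exact h1 (hQu _ h2)

omit h0 in
theorem avoid (hnt : ∃ t : K, t ≠ 0 ∧ v t < 1) {ι : Type} [Finite ι] {a : ι → K} {d : K}
    (hd : d ∉ acl L a) {g : K} (hg : g ≠ 0) {W : Set K} (hW : W.Finite) :
    ∃ w, nr1 L v a d w ∧ v (w - d) < v g ∧ w ∉ W := by
  have hd0 : d ≠ 0 := fun h => hd (h ▸ zero_mem_acl hV a)
  have hvd : v d ≠ 0 := (Valuation.ne_zero_iff v).2 hd0
  let D : Set K := insert 1 (insert (g / d) ((fun w => (d - w) / d) '' (W \ {d})))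
  have hD : D.Finite := ((hW.subset Set.diff_subset).image _ |>.insert _).insert _
  obtain ⟨l, hl, hmin⟩ := Set.exists_min_image D v hD ⟨1, Or.inl rfl⟩
  have hl0 : l ≠ 0 := by
    rcases hl with rfl | rfl | ⟨w, hw, rfl⟩
    · exact one_ne_zero
    · exact div_ne_zero hg hd0
    · exact div_ne_zero (sub_ne_zero.2 fun h => hw.2 h.symm) hd0
  have hl1 : v l ≤ 1 := by
    have := hmin 1 (Or.inl rfl)
    rwa [map_one] at this
  obtain ⟨w, hw, hnr⟩ := exists_small hK hV a hnt hl0 hd
  have h1 : v (w - d) < v l * v d := by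
    have := hnr 0 (zero_mem_acl hV a)
    rwa [sub_zero] at this
  have key : ∀ x ∈ D, v (w - d) < v (x * d) := by
    intro x hx
    rw [map_mul]
    exact h1.trans_le (mul_le_mul_left (hmin x hx) _)
  refine ⟨w, hnr.to1 hl1, ?_, fun hwW => ?_⟩
  · have := key (g / d) (Or.inr (Or.inl rfl))
    rwa [div_mul_cancel₀ _ hd0] at this
  · have := key ((d - w) / d) (Or.inr (Or.inr ⟨w, ⟨hwW, hw⟩, rfl⟩))
    rw [div_mul_cancel₀ _ hd0, v_sub_comm] at this
    exact lt_irrefl _ this

end

end Pool.Agent.R611.HM
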