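import Pool.Agent.R611.CO.A1

/-!
# Exchange
-/

set_option autoImplicit false
set_option linter.unusedSectionVars false

namespace Pool.Agent.R611.HM

open FirstOrder Language Structure Set

universe u w

variable {L : FirstOrder.Language.{u, u}} {K : Type u} [L.Structure K] [Field K]
variable {Γ : Type w} [LinearOrderedCommGroupWithZero Γ] {v : Valuation K Γ}

/-- a witness of algebraicity all of whose fibres are finite -/
theorem acl_ufin {ι : Type} [Finite ι] {a : ι → K} {c : K} (h : c ∈ acl L a) :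
    ∃ P : (ι → K) → K → Prop, Df L (fun w : Option ι → K => P (fun i => w (some i)) (w none)) ∧
      (∀ b, {x | P b x}.Finite) ∧ P a c := by
  obtain ⟨P, hP, hf, hc⟩ := acl_orbit h
  obtain ⟨k, hk⟩ := atMost_of_finite hf
  have hk' : ¬ ∃ t : Fin (k + 1) → K, Function.Injective t ∧ ∀ i, P a (t i) := hk
  refine ⟨fun b x => P b x ∧ ¬ ∃ t : Fin (k + 1) → K, Function.Injective t ∧ ∀ i, P b (t i),
    hP.and ?_, fun b => ?_, hc, hk'⟩
  · exact (df_atMost k hP).relabel some
  · by_cases hb : ∃ t : Fin (k + 1) → K, Function.Injective t ∧ ∀ i, P b (t i)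
    · exact (Set.finite_empty).subset fun x hx => absurd hb hx.2
    · exact (finite_of_atMost (X := {x | P b x}) hb).subset fun x hx => hx.1

theorem df_oc {ι β : Type} [Finite ι] [Finite β] {P : (Option ι → K) → K → Prop}
    (hP : Df L (fun w : Option (Option ι) → K => P (fun i => w (some i)) (w none)))
    (E X : β) (A : ι → β) :
    Df L (fun w : β → K => P (oc (w E) (fun i => w (A i))) (w X)) := by
  refine (hP.relabel (β := β) (fun o => o.elim X (fun o' => o'.elim E A))).congr fun w => ?_
  apply iff_of_eq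
  congr 1
  funext i
  rcases i with _ | i <;> rfl

theorem df_mem_acl {ι : Type} [Finite ι] {b : ι → K} {P : (ι → K) → K → Prop}
    (hP : Df L (fun w : Option ι → K => P (fun i => w (some i)) (w none)))
    (hf : {x | P b x}.Finite) {c : K} (hc : P b c) : c ∈ acl L b := ⟨P, ⟨hP, hf⟩, hc⟩

section

variable (hK : Satur L K) (hV : VF L v) (h0 : H0R L v) (hnt : ∃ t : K, t ≠ 0 ∧ v t < 1)

include hK hV h0 hnt

theorem exch0 {ι : Type} [Finite ι] {a : ι → K} {x e : K} (hx : x ∉ acl L a)
    (hxe : x ∈ acl L (oc e a)) : e ∈ acl L (oc x a) := by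
  by_contra he
  obtain ⟨P, hP, hPf, hPx⟩ := acl_ufin hxe
  have hQ : ∀ {β : Type} [Finite β] (E X : β) (A : ι → β),
      Df L (fun w : β → K => P (oc (w E) (fun i => w (A i))) (w X)) := fun E X A => df_oc hP E X A
  obtain ⟨C, hC, hCa, hCQ⟩ := fin_ball hK hV (oc x a) (β := Option ι)
    (fun e' p => P (oc e' (fun i => p (some i))) (p none))
    (hQ none (some none) (fun i => some (some i))) (oc x a) (u := e) (by
      intro e' he'
      have h1 := h0 _ (oc x a) e e' he'
      exact h1.df (P := fun w : Option (Option ι) → K =>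
        P (oc (w none) (fun i => w (some (some i)))) (w (some none)))
        (hQ none (some none) (fun i => some (some i))) hPx)
  obtain ⟨d0, hd0C, hd0⟩ := exists_min_dist (v := v) (hC.insert 0) (Set.insert_nonempty _ _) e
  have hd0a : d0 ∈ acl L (oc x a) := by
    rcases hd0C with h | h
    · rw [h]; exact zero_mem_acl hV _
    · exact hCa h
  have hg0 : e - d0 ≠ 0 := fun h => he (sub_eq_zero.1 h ▸ hd0a)
  let T : K → K → K → (ι → K) → Prop := fun x' w g p =>
    ∀ e', RVeq v g (e' - w) → P (oc e' p) x'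
  have hT : ∀ {β : Type} [Finite β] (X W G : β) (A : ι → β),
      Df L (fun w : β → K => T (w X) (w W) (w G) (fun i => w (A i))) := by
    intro β _ X W G A
    refine Df.all1 (Q := fun e' (w : β → K) => RVeq v (w G) (e' - w W) →
      P (oc e' (fun i => w (A i))) (w X)) ?_
    exact Df.imp (hV.rveq (dvar _) (hV.fsub (dvar _) (dvar _)))
      (hQ none (some X) (fun i => some (A i)))
  have hT0 : T x d0 (e - d0) a := by
    intro e' h1
    rcases h1 with ⟨h1, _⟩ | h1
    · exact absurd h1 hg0
    · refine hCQ e' fun c hc => ?_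
      have e1 : e - d0 - (e' - d0) = -(e' - e) := by ring
      rw [e1, Valuation.map_neg] at h1
      exact h1.trans_le (hd0 c (Or.inr hc))
  by_cases hda : d0 ∈ acl L a
  · obtain ⟨x1, hx1, _, hx1F⟩ := avoid hK hV hnt hx one_ne_zero (hPf (oc e a))
    have hR := h0 _ a x x1 hx1
    obtain ⟨d1, h1⟩ := hR.ext hK hV h0 d0
    have h2 : RE L v (oc d0 a) (oc d1 a) := h1.sub (fun o => o.elim none (fun i => some (some i)))
      (by rintro (_ | i) <;> rfl) (by rintro (_ | i) <;> rfl)
    have h3 := h2.uniq hK hV hda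
    subst h3
    obtain ⟨g', h4, h5⟩ := h1 Unit (fun w => T (w (Sum.inl (some none))) (w (Sum.inl none))
      (w (Sum.inr ())) (fun i => w (Sum.inl (some (some i))))) (hT _ _ _ _) (fun _ => e - d0) hT0
    exact hx1F (h5 e (h4 ()).symm)
  · obtain ⟨R, hR, hRf, hRd⟩ := acl_ufin hd0a
    have hR' : ∀ {β : Type} [Finite β] (E X : β) (A : ι → β),
      Df L (fun w : β → K => R (oc (w E) (fun i => w (A i))) (w X)) :=
        fun E X A => df_oc hR E X A
    have hWf : (⋃ x' ∈ {x' | T x' d0 (e - d0) a}, {w | R (oc x' a) w}).Finite := by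
      refine Set.Finite.biUnion ((hPf (oc e a)).subset fun x' hx' => ?_) fun x' _ => hRf _
      exact hx' e (RVeq.refl _)
    obtain ⟨w, hw, hwg, hwW⟩ := avoid hK hV hnt hda hg0 hWf
    have h1 := h0 _ a d0 w hw
    have hDf : Df L (fun q : Option ι ⊕ Unit → K => ∃ x', R (oc x' (fun i => q (Sum.inl (some i))))
        (q (Sum.inl none)) ∧ T x' (q (Sum.inl none)) (q (Sum.inr ()))
          (fun i => q (Sum.inl (some i)))) := by
      refine Df.ex1 (Q := fun x' (q : Option ι ⊕ Unit → K) =>
        R (oc x' (fun i => q (Sum.inl (some i)))) (q (Sum.inl none)) ∧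
        T x' (q (Sum.inl none)) (q (Sum.inr ())) (fun i => q (Sum.inl (some i)))) ?_
      exact Df.and (hR' none (some (Sum.inl none)) (fun i => some (Sum.inl (some i))))
        (hT none (some (Sum.inl none)) (some (Sum.inr ())) (fun i => some (Sum.inl (some i))))
    obtain ⟨g', h4, x', h5, h6⟩ := h1 Unit _ hDf (fun _ => e - d0) ⟨x, hRd, hT0⟩
    have h4 : RVeq v (e - d0) (g' ()) := h4 ()
    have h5 : R (oc x' a) w := h5
    have h6 : T x' w (g' ()) a := h6
    refine hwW (Set.mem_biUnion (x := x') ?_ h5)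
    intro e' he'
    refine h6 e' (h4.symm.trans (he'.trans ?_))
    right
    have e1 : e' - d0 - (e' - w) = w - d0 := by ring
    rw [e1, he'.v_eq]
    exact hwg

end

end Pool.Agent.R611.HM
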