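import Pool.Agent.R611.CO.A2

/-!
# The slope lemma
-/

set_option autoImplicit false
set_option linter.unusedSectionVars false

namespace Pool.Agent.R611.HM

open FirstOrder Language Structure Set

universe u w

variable {L : FirstOrder.Language.{u, u}} {K : Type u} [L.Structure K] [Field K]
variable {Γ : Type w} [LinearOrderedCommGroupWithZero Γ] {v : Valuation K Γ}

/-- adding the value of a definable function -/
theorem RE.addfn {ι : Type} [Finite ι] {a a' : ι → K} (h : RE L v a a') {f : (ι → K) → K}
    (hf : DfF L f) : RE L v (oc (f a) a) (oc (f a') a') := by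
  intro κ _ P hP z hz
  have hP' : Df L (fun w : ι ⊕ κ → K => P (Sum.elim (oc (f (fun i => w (Sum.inl i)))
      (fun i => w (Sum.inl i))) (fun k => w (Sum.inr k)))) := by
    refine (hP.comp (α := ι ⊕ κ) (f := fun (o : Option ι ⊕ κ) (w : ι ⊕ κ → K) =>
      Sum.elim (oc (f (fun i => w (Sum.inl i)))
      (fun i => w (Sum.inl i))) (fun k => w (Sum.inr k)) o) ?_).congr fun w => Iff.rfl
    rintro ((_ | i) | k)
    · exact hf.comp (fun i => DfF.var (Sum.inl i))
    · exact DfF.var (Sum.inl i)
    · exact DfF.var (Sum.inr k)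
  exact h κ _ hP' z hz

theorem VF.charZero (hV : VF L v) : CharZero K :=
  charZero_of_inj_zero fun n hn => by
    by_contra h0
    have := hV.nat n h0
    rw [hn, map_zero] at this
    exact zero_ne_one this

theorem VF.nat_le (hV : VF L v) (n : ℕ) : v (n : K) ≤ 1 := by
  by_cases h : n = 0
  · rw [h, Nat.cast_zero, map_zero]; exact zero_le_one
  · exact (hV.nat n h).le

section

variable (hK : Satur L K) (hV : VF L v) (hnt : ∃ t : K, t ≠ 0 ∧ v t < 1)

include hK hV hnt

theorem exists_indep {ι : Type} [Finite ι] {b : ι → K} {y : K} (hy : y ∉ acl L b) :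
    ∃ y2, nr1 L v b y y2 ∧ y2 ∉ acl L (oc y b) := by
  have := hV.charZero
  obtain ⟨y3, h1, h2⟩ := exists_small1 hK hV b hnt hy
  obtain ⟨u', h3, h4⟩ := sat_acl' (L := L) hK (α := Unit) (β := Bool)
    (fun b => if b then y3 else y) (oc y b)
    (fun u' p => v (u' () - p false) ≤ v (p true - p false))
    (hV.vle (hV.fsub (dvar _) (dvar _)) (hV.fsub (dvar _) (dvar _)))
    (fun c u' _ => u' () ≠ c)
    ((Df.eq (dvar _) (dvar _)).not)
    (by
      intro C hC _
      have hinj : Function.Injective (fun n : ℕ => y + n * (y3 - y)) := by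
        intro n m hnm
        have h5 : (n : K) * (y3 - y) = m * (y3 - y) := add_left_cancel hnm
        exact Nat.cast_injective (mul_right_cancel₀ (sub_ne_zero.2 h1) h5)
      obtain ⟨_, ⟨n, rfl⟩, hn⟩ := (Set.infinite_range_of_injective hinj).exists_notMem_finite hC
      refine ⟨fun _ => y + n * (y3 - y), ?_, fun c hc h => hn (h ▸ hc)⟩
      simp only [if_true, if_false, Bool.false_eq_true]
      rw [add_sub_cancel_left, map_mul]
      exact mul_le_of_le_one_left' (hV.nat_le n))
  refine ⟨u' (), h2.of_le ?_, fun h => h4 _ h rfl⟩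
  simpa using h3

variable (h0 : H0R L v)

include h0

theorem slope {ι : Type} [Finite ι] {a : ι → K} {y z y1 z1 : K} (hy : y ∉ acl L a)
    (hz : z ∈ acl L (oc y a)) (hE : RE L v (oc z (oc y a)) (oc z1 (oc y1 a))) (hyy : y1 ≠ y)
    {e : K} (he : z1 - z = e * (y1 - y)) :
    (∃ e ∈ acl L a, ∃ g ∈ acl L a, z = g + e * y) ∨
      (e ≠ 0 ∧ ∃ e1 ∈ acl L (oc y a), RVeq v e1 e) := by
  have hEy : RE L v (oc y a) (oc y1 a) := hE.sub some (fun _ => rfl) (fun _ => rfl)
  have hn1 : nr1 L v a y y1 := hEy.nr hK hV h0 hy
  by_cases hB : ∃ x0 ∈ acl L (oc e a), nr1 L v a y x0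
  · right
    obtain ⟨x0, hx0, hn⟩ := hB
    have he1 : e ∈ acl L (oc x0 a) := exch0 hK hV h0 hnt hn.notMem' hx0
    obtain ⟨e1, h1⟩ := (h0 _ a x0 y hn.symm).ext hK hV h0 e
    refine ⟨?_, e1, h1.alg he1, (h1.rv none).symm⟩
    rintro rfl
    exact hn.notMem' (acl_oc_le (mem_acl_self a) (zero_mem_acl hV a) hx0)
  · left
    push Not at hB
    have hA : ∀ y'', nr1 L v a y y'' → nr1 L v (oc e a) y y'' := by
      intro y'' h1 c hc
      by_contra h2
      refine hB c hc (h1.of_le ?_)
      rw [v_sub_comm]
      exact not_lt.1 h2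
    have H1 : RE L v (oc y (oc e a)) (oc y1 (oc e a)) := h0 _ _ y y1 (hA y1 hn1)
    obtain ⟨z1', H2⟩ := H1.ext hK hV h0 z
    have H2' : RE L v (oc z (oc y a)) (oc z1' (oc y1 a)) :=
      H2.sub (fun o => o.elim none (fun o' => o'.elim (some none) (fun i => some (some (some i)))))
        (by rintro (_ | _ | i) <;> rfl) (by rintro (_ | _ | i) <;> rfl)
    have hzz : z1 = z1' := RE.uniq hK hV ((hE.symm hV).trans H2') (hE.alg hz)
    subst hzz
    have hff : DfF L (fun w : Option (Option (Option ι)) → K =>
        w none - w (some (some none)) * w (some none)) :=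
      hV.fsub (dvar _) (hV.fmul (dvar _) (dvar _))
    have H3 := H2.addfn hff
    have hg : z - e * y = z1 - e * y1 := by
      have : z1 = z + e * (y1 - y) := by rw [← he]; ring
      rw [this]; ring
    have H4 : RE L v (oc y (oc (z - e * y) (oc e a))) (oc y1 (oc (z - e * y) (oc e a))) := by
      refine H3.sub (fun o => o.elim (some (some none)) (fun o' => o'.elim none (fun o'' =>
        o''.elim (some (some (some none))) (fun i => some (some (some (some i))))))) ?_ ?_
      · rintro (_ | _ | _ | i) <;> rfl
      · rintro (_ | _ | _ | i)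
        · rfl
        · exact hg
        · rfl
        · rfl
    set g := z - e * y with hgdef
    have hyb : y ∉ acl L (oc g (oc e a)) := fun h => hyy (H4.uniq hK hV h).symm
    have hzg : z = g + e * y := by rw [hgdef]; ring
    have hebm : e ∈ acl L (oc g (oc e a)) := acl_le_oc _ _ (mem_acl_oc a e)
    have hab : ∀ i, a i ∈ acl L (oc g (oc e a)) := fun i =>
      acl_le_oc _ _ (acl_le_oc _ _ (mem_acl_self a i))
    have hgb : g ∈ acl L (oc g (oc e a)) := mem_acl_oc _ _
    -- `e` is algebraic over `y, a`
    have hey : e ∈ acl L (oc y a) := by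
      by_contra hne
      obtain ⟨y2, hn2, hy2⟩ := exists_indep hK hV hnt hyb
      have J1 := h0 _ _ y y2 hn2
      obtain ⟨z2, J2⟩ := J1.ext hK hV h0 z
      have J3 : z2 = g + e * y2 := by
        have hD : Df L (fun w : Option (Option (Option (Option ι))) → K =>
            w none - w (some (some (some none))) * w (some none) = w (some (some none))) :=
          Df.eq (hV.fsub (dvar _) (hV.fmul (dvar _) (dvar _))) (dvar _)
        have := J2.df hD (by change z - e * y = g; rw [hgdef])
        change z2 - e * y2 = g at this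
        rw [← this]; ring
      have J4 : RE L v (oc z (oc y a)) (oc z2 (oc y2 a)) :=
        J2.sub (fun o => o.elim none (fun o' => o'.elim (some none)
          (fun i => some (some (some (some i))))))
          (by rintro (_ | _ | i) <;> rfl) (by rintro (_ | _ | i) <;> rfl)
      have hz2 : z2 ∈ acl L (oc y2 a) := J4.alg hz
      have hyy2 : y2 - y ≠ 0 := by
        intro h
        rw [sub_eq_zero] at h
        exact hy2 (h ▸ mem_acl_oc _ _)
      have e1 : e = (z2 - z) / (y2 - y) := by
        rw [eq_div_iff hyy2, J3, hzg]; ring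
      have he2 : e ∈ acl L (oc y2 (oc y a)) := by
        have hz' : z ∈ acl L (oc y2 (oc y a)) := acl_le_oc _ _ hz
        have hy' : y ∈ acl L (oc y2 (oc y a)) := acl_le_oc _ _ (mem_acl_oc _ _)
        have hy2' : y2 ∈ acl L (oc y2 (oc y a)) := mem_acl_oc _ _
        have hz2' : z2 ∈ acl L (oc y2 (oc y a)) :=
          acl_oc_le (fun i => acl_le_oc _ _ (acl_le_oc _ _ (mem_acl_self a i))) hy2' hz2
        have hn := sub_mem_acl hV hz2' hz'
        have hd := sub_mem_acl hV hy2' hy'
        have key : ∀ {x y : K}, x ∈ acl L (oc y2 (oc y a)) → y ∈ acl L (oc y2 (oc y a)) → True :=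
          fun _ _ => trivial
        -- the quotient
        let P : (Bool → K) → K → Prop := fun w x => x * w false = w true ∧ w false ≠ 0
        refine acl_trans (a := fun b : Bool => if b then z2 - z else y2 - y) (b :=
          oc y2 (oc y a)) (by rintro (_ | _) <;> simpa) ?_
        refine ⟨P, ⟨?_, ?_⟩, ?_⟩
        · exact Df.and (Df.eq (hV.fmul (dvar _) (dvar _)) (dvar _))
            (Df.eq (dvar _) hV.fzero).not
        · refine Set.Subsingleton.finite ?_
          rintro x ⟨hx1, hx2⟩ x' ⟨hx3, _⟩
          exact mul_right_cancel₀ hx2 (hx1.trans hx3.symm)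
        · refine ⟨?_, ?_⟩
          · simp only [if_true, if_false, Bool.false_eq_true]
            rw [e1, div_mul_cancel₀ _ hyy2]
          · simpa using hyy2
      have hy2e : y2 ∈ acl L (oc e (oc y a)) := exch0 hK hV h0 hnt hne he2
      refine hy2 (acl_oc_le ?_ ?_ hy2e)
      · rintro (_ | i)
        · exact mem_acl_oc _ _
        · exact acl_le_oc _ _ (hab i)
      · exact acl_le_oc _ _ hebm
    -- `e` is algebraic over `a`
    have hea : e ∈ acl L a := by
      by_contra hne
      obtain ⟨e', hee, hn⟩ := exists_small1 hK hV a hnt hne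
      obtain ⟨y'', J1⟩ := (h0 _ a e e' hn).ext hK hV h0 y
      have J2 : RE L v (oc y a) (oc y'' a) :=
        J1.sub (fun o => o.elim none (fun i => some (some i)))
          (by rintro (_ | i) <;> rfl) (by rintro (_ | i) <;> rfl)
      have J3 := hA y'' (J2.nr hK hV h0 hy)
      have J4 := h0 _ _ y y'' J3
      have J5 : RE L v (oc y'' (oc e a)) (oc y'' (oc e' a)) := (J4.symm hV).trans J1
      have J6 : RE L v (oc e (oc y'' a)) (oc e' (oc y'' a)) :=
        J5.sub (fun o => o.elim (some none) (fun o' => o'.elim none (fun i => some (some i))))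
          (by rintro (_ | _ | i) <;> rfl) (by rintro (_ | _ | i) <;> rfl)
      have J7 : RE L v (oc e (oc y a)) (oc e (oc y'' a)) :=
        J4.sub (fun o => o.elim (some none) (fun o' => o'.elim none (fun i => some (some i))))
          (by rintro (_ | _ | i) <;> rfl) (by rintro (_ | _ | i) <;> rfl)
      exact hee (J6.uniq hK hV (J7.alg hey)).symm
    refine ⟨e, hea, g, ?_, hzg⟩
    by_contra hga
    have hgy : g ∈ acl L (oc y a) := by
      have h1 : e * y ∈ acl L (oc y a) := by
        have := fn_mem_acl (a := oc y a) (hV.fmul (DfF.var true) (DfF.var false))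
          (c := fun b => if b then e else y) (by
            rintro (_ | _)
            · exact mem_acl_oc a y
            · exact hey)
        simpa using this
      exact sub_mem_acl hV hz h1
    have := exch0 hK hV h0 hnt hga hgy
    exact hyb (acl_oc_le hab hgb this)

end

end Pool.Agent.R611.HM
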