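import Pool.Agent.R611.CO.A3

/-!
# Infinitely many slopes, monotonicity
-/

set_option autoImplicit false
set_option linter.unusedSectionVars false

namespace Pool.Agent.R611.HM

open FirstOrder Language Structure Set

universe u w

variable {L : FirstOrder.Language.{u, u}} {K : Type u} [L.Structure K] [Field K]
variable {Γ : Type w} [LinearOrderedCommGroupWithZero Γ] {v : Valuation K Γ}

/-- equivalent pairs -/
def EP (L : FirstOrder.Language.{u, u}) {K : Type u} [L.Structure K] [Field K]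
    {Γ : Type w} [LinearOrderedCommGroupWithZero Γ] (v : Valuation K Γ) {ι : Type}
    (a : ι → K) (y z y1 z1 : K) : Prop := RE L v (oc z (oc y a)) (oc z1 (oc y1 a))

theorem EP.base {ι : Type} {a : ι → K} {y z y1 z1 : K} (h : EP L v a y z y1 z1) :
    RE L v (oc y a) (oc y1 a) := h.sub some (fun _ => rfl) (fun _ => rfl)

theorem EP.snd {ι : Type} {a : ι → K} {y z y1 z1 : K} (h : EP L v a y z y1 z1) :
    RE L v (oc z a) (oc z1 a) :=
  h.sub (fun o => o.elim none (fun i => some (some i)))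
    (by rintro (_ | i) <;> rfl) (by rintro (_ | i) <;> rfl)

section

variable (hK : Satur L K) (hV : VF L v) (h0 : H0R L v) (hnt : ∃ t : K, t ≠ 0 ∧ v t < 1)

include hK hV h0 hnt

theorem no_inf {ι : Type} [Finite ι] {a : ι → K} {y z : K} (hy : y ∉ acl L a)
    (hz : z ∈ acl L (oc y a)) (hlin : ¬ ∃ e ∈ acl L a, ∃ g ∈ acl L a, z = g + e * y)
    (ys zs : ℕ → K) (hne : ∀ n, ys n ≠ y)
    (hE : ∀ n, EP L v a y z (ys n) (zs n)) :
    ∃ n m, n < m ∧ ∃ f, RVeq v (f * (ys n - y)) (zs n - z) ∧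
      RVeq v (f * (ys m - y)) (zs m - z) := by
  classical
  by_contra hcon
  push Not at hcon
  obtain ⟨P, hP, hPf, hPz⟩ := acl_orbit hz
  let k : ℕ := hPf.toFinset.card
  let A' : Option ι → Bool ⊕ Option (Option ι) :=
    fun o => o.elim (Sum.inl true) (fun i => Sum.inr (some (some i)))
  let F0 : (Bool ⊕ Option (Option ι) → K) → Prop := fun w =>
    MP v P k (fun i => w (Sum.inr (some i))) (fun i => w (A' i)) (w (Sum.inr none))
      (w (Sum.inl false)) ∧ w (Sum.inl true) ≠ w (Sum.inr (some none))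
  let F1 : ((ι → K) → K → Prop) → (Bool ⊕ Option (Option ι) → K) → Prop := fun P w =>
    ∀ c, P (fun i => w (Sum.inr (some (some i)))) c →
      v (w (Sum.inl true) - w (Sum.inr (some none))) < v (w (Sum.inr (some none)) - c)
  let F2 : ((Option ι → K) → K → Prop) → (Bool ⊕ Option (Option ι) → K) → Prop := fun P w =>
    ∀ c, P (fun i => w (Sum.inr (some i))) c →
      ¬ RVeq v (c * (w (Sum.inl true) - w (Sum.inr (some none))))
        (w (Sum.inl false) - w (Sum.inr none))
  let Ps : Set ((Bool ⊕ Option (Option ι) → K) → Prop) :=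
    {F | F = F0 ∨ (∃ P ∈ FD L a, F = F1 P) ∨ (∃ P ∈ FD L (oc y a), F = F2 P)}
  -- matching
  have hMP : ∀ y' z', EP L v a y z y' z' → MP v P k (oc y a) (oc y' a) z z' := by
    intro y' z' h
    obtain ⟨S, hS, hSm⟩ := RE.exists_mv hK hV h
      (Z := dif ({x | P (oc y a) x} ∪ {z}))
      (dif_finite (hPf.union (Set.finite_singleton z)))
    refine MP_of_mv hV hP hPf hS (fun i => hSm (some i)) ?_ (hSm none) ?_
    · rintro x (hx | ⟨⟨p, q⟩, ⟨hp, hq⟩, rfl⟩)
      · exact mem_dif (Or.inl hx)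
      · exact sub_mem_dif (Or.inl hp) (Or.inl hq)
    · intro c hc
      exact sub_mem_dif (Or.inr rfl) (Or.inl hc)
  obtain ⟨x, hx⟩ := hK Bool (Option (Option ι)) (oc z (oc y a)) Ps (by
    rintro F (rfl | ⟨R, hR, rfl⟩ | ⟨R, hR, rfl⟩)
    · exact (MP_df hV hP k _ _ _ _).and (Df.eq (dvar _) (dvar _)).not
    · refine Df.all1 (Q := fun c (w : Bool ⊕ Option (Option ι) → K) =>
        R (fun i => w (Sum.inr (some (some i)))) c →
        v (w (Sum.inl true) - w (Sum.inr (some none))) < v (w (Sum.inr (some none)) - c)) ?_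
      refine Df.imp ?_ (hV.vlt (hV.fsub (dvar _) (dvar _)) (hV.fsub (dvar _) (dvar _)))
      exact hR.1.relabel (β := Option (Bool ⊕ Option (Option ι)))
        (fun o : Option ι => o.elim none (fun i => some (Sum.inr (some (some i)))))
    · refine Df.all1 (Q := fun c (w : Bool ⊕ Option (Option ι) → K) =>
        R (fun i => w (Sum.inr (some i))) c →
        ¬ RVeq v (c * (w (Sum.inl true) - w (Sum.inr (some none))))
          (w (Sum.inl false) - w (Sum.inr none))) ?_
      refine Df.imp ?_ (hV.rveq (hV.fmul (dvar _) (hV.fsub (dvar _) (dvar _)))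
        (hV.fsub (dvar _) (dvar _))).not
      exact hR.1.relabel (β := Option (Bool ⊕ Option (Option ι)))
        (fun o : Option (Option ι) => o.elim none (fun i => some (Sum.inr (some i))))) (by
    intro Qs hQs hfin
    let pt : ℕ → (Bool ⊕ Option (Option ι) → K) := fun n =>
      Sum.elim (fun b => if b then ys n else zs n) (oc z (oc y a))
    have hbad : (⋃ Q ∈ Qs, {n | ¬ Q (pt n)}).Finite := by
      refine hfin.biUnion fun Q hQ => ?_
      rcases hQs hQ with rfl | ⟨R, hR, rfl⟩ | ⟨R, hR, rfl⟩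
      · refine Set.finite_empty.subset fun n hn => hn ⟨?_, hne n⟩
        have h1 := hMP _ _ (hE n)
        have e1 : (fun i => pt n (A' i)) = oc (ys n) a := by
          funext i
          rcases i with _ | i <;> rfl
        rw [e1]
        exact h1
      · refine Set.finite_empty.subset fun n hn => hn fun c hc => ?_
        exact (hE n).base.nr hK hV h0 hy c ⟨R, hR, hc⟩
      · have hRf : {c | R (oc y a) c}.Finite := hR.2
        refine (hRf.biUnion (t := fun c => {n | RVeq v (c * (ys n - y)) (zs n - z)})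
          fun c _ => ?_).subset ?_
        · refine Set.Subsingleton.finite fun n hn m hm => ?_
          by_contra hnm
          rcases lt_or_gt_of_ne hnm with h | h
          · exact hcon n m h c hn hm
          · exact hcon m n h c hm hn
        · intro n hn
          by_contra h
          refine hn fun c hc hrv => h ?_
          exact Set.mem_biUnion (x := c) hc hrv
    obtain ⟨n, hn⟩ := hbad.exists_notMem
    refine ⟨fun b => if b then ys n else zs n, fun Q hQ => ?_⟩
    by_contra h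
    exact hn (Set.mem_biUnion (x := Q) hQ h))
  obtain ⟨h1, h2⟩ := hx F0 (Or.inl rfl)
  have e1 : (fun i => (Sum.elim x (oc z (oc y a)) : Bool ⊕ Option (Option ι) → K) (A' i)) =
      oc (x true) a := by
    funext i
    rcases i with _ | i <;> rfl
  rw [e1] at h1
  have h1 : MP v P k (oc y a) (oc (x true) a) z (x false) := h1
  have h2 : x true ≠ y := h2
  have h3 : nr1 L v a y (x true) := by
    rintro c ⟨R, hR, hc⟩
    exact hx (F1 R) (Or.inr (Or.inl ⟨R, hR, rfl⟩)) c hc
  have h4 : ∀ c ∈ acl L (oc y a), ¬ RVeq v (c * (x true - y)) (x false - z) := by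
    rintro c ⟨R, hR, hc⟩
    exact hx (F2 R) (Or.inr (Or.inr ⟨R, hR, rfl⟩)) c hc
  have h5 := h0 _ a y (x true) h3
  obtain ⟨z', h6⟩ := h5.ext hK hV h0 z
  have h7 := hMP _ _ h6
  have h8 : P (oc (x true) a) z' := h6.df (P := fun w : Option (Option ι) → K =>
    P (fun i => w (some i)) (w none)) hP hPz
  have h9 := MP_rv hK hV hP hPf h5 h1 h7 h8
  have h10 : x false = z' := by
    rcases h9 with ⟨h9, _⟩ | h9
    · exact sub_eq_zero.1 h9
    · rw [sub_self, sub_zero] at h9
      exact absurd h9 (lt_irrefl _)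
  subst h10
  have hxy : x true - y ≠ 0 := sub_ne_zero.2 h2
  rcases slope hK hV hnt h0 hy hz h6 h2 (e := (x false - z) / (x true - y))
    (by rw [div_mul_cancel₀ _ hxy]) with h11 | ⟨_, e1, he1, h12⟩
  · exact hlin h11
  · refine h4 e1 he1 ?_
    have : x false - z = (x false - z) / (x true - y) * (x true - y) := by
      rw [div_mul_cancel₀ _ hxy]
    rw [this]
    rcases h12 with ⟨h12, h13⟩ | h12
    · left
      rw [h12, h13]
      simp
    · right
      rw [← sub_mul, map_mul, map_mul]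
      exact mul_lt_mul_of_pos_right h12 ((Valuation.pos_iff v).2 hxy)

omit hnt in
theorem EP.copy {ι : Type} [Finite ι] {a : ι → K} {y z y1 z1 y2 z2 : K}
    (h1 : EP L v a y z y1 z1) (h2 : EP L v a y z y2 z2) :
    ∃ y3 z3, EP L v a y z y3 z3 ∧ RVeq v (y1 - y) (y3 - y2) ∧ RVeq v (z1 - z) (z3 - z2) := by
  obtain ⟨y3, h3⟩ := RE.ext hK hV h0 h2 y1
  obtain ⟨z3, h4⟩ := RE.ext hK hV h0 h3 z1
  refine ⟨y3, z3, h1.trans ?_, h3.rvsub hV none (some (some none)),
    h4.rvsub hV none (some (some none))⟩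
  exact h4.sub (fun o => o.elim none (fun o' => o'.elim (some none)
      (fun i => some (some (some (some i))))))
    (by rintro (_ | _ | i) <;> rfl) (by rintro (_ | _ | i) <;> rfl)

omit hnt in
theorem EP.fst_ne {ι : Type} [Finite ι] {a : ι → K} {y z y1 z1 : K} (hz : z ∈ acl L (oc y a))
    (h1 : EP L v a y z y1 z1) (h : z1 ≠ z) : y1 ≠ y := by
  rintro rfl
  exact h (RE.uniq hK hV h1 hz).symm

theorem mono_pairs {ι : Type} [Finite ι] {a : ι → K} {y z : K} (hy : y ∉ acl L a)
    (hz : z ∈ acl L (oc y a)) (hlin : ¬ ∃ e ∈ acl L a, ∃ g ∈ acl L a, z = g + e * y)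
    {y1 z1 y2 z2 : K} (hE1 : EP L v a y z y1 z1) (hE2 : EP L v a y z y2 z2)
    (hle : v (y2 - y) ≤ v (y1 - y)) : v (z2 - z) ≤ v (z1 - z) := by
  by_contra hcon
  rw [not_le] at hcon
  have hz2 : z2 ≠ z := by
    rintro rfl
    rw [sub_self, map_zero] at hcon
    exact absurd hcon not_lt_zero
  have hy2 : y2 ≠ y := hE2.fst_ne hK hV h0 hz hz2
  have hα : 0 < v (y1 - y) := ((Valuation.pos_iff v).2 (sub_ne_zero.2 hy2)).trans_le hle
  let T : Type u := {q : K × K // EP L v a y z q.1 q.2}
  have hstep : ∀ q : T, ∃ r : T, RVeq v (y1 - y) (r.1.1 - q.1.1) ∧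
      RVeq v (z1 - z) (r.1.2 - q.1.2) := by
    intro q
    obtain ⟨y3, z3, h1, h2, h3⟩ := hE1.copy hK hV h0 q.2
    exact ⟨⟨(y3, z3), h1⟩, h2, h3⟩
  choose st hst1 hst2 using hstep
  let sq : ℕ → T := fun n => Nat.rec ⟨(y2, z2), hE2⟩ (fun _ q => st q) n
  have hs0 : sq 0 = ⟨(y2, z2), hE2⟩ := rfl
  have hs1 : ∀ n, sq (n + 1) = st (sq n) := fun n => rfl
  have hA : ∀ n, v ((sq n).1.2 - z2) ≤ v (z1 - z) := by
    intro n
    induction n with
    | zero => rw [hs0]; simp
    | succ n ih =>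
      have h1 := (hst2 (sq n)).v_eq
      rw [hs1]
      exact v_tri h1.le ih
  have hB : ∀ n, RVeq v (z2 - z) ((sq n).1.2 - z) := by
    intro n
    right
    have e : z2 - z - ((sq n).1.2 - z) = -((sq n).1.2 - z2) := by ring
    rw [e, Valuation.map_neg]
    exact (hA n).trans_lt hcon
  have hC : ∀ n k : ℕ, v ((sq (n + k)).1.1 - (sq n).1.1 - k * (y1 - y)) < v (y1 - y) := by
    intro n k
    induction k with
    | zero =>
      rw [add_zero, sub_self, Nat.cast_zero, zero_mul, sub_self, map_zero]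
      exact hα
    | succ k ih =>
      have h1 : v (y1 - y - ((sq (n + k + 1)).1.1 - (sq (n + k)).1.1)) < v (y1 - y) := by
        rcases hst1 (sq (n + k)) with ⟨h, _⟩ | h
        · rw [h, map_zero] at hα
          exact absurd hα (lt_irrefl _)
        · rw [hs1]; exact h
      have e : (sq (n + (k + 1))).1.1 - (sq n).1.1 - ((k + 1 : ℕ) : K) * (y1 - y) =
          ((sq (n + k)).1.1 - (sq n).1.1 - k * (y1 - y)) -
          (y1 - y - ((sq (n + k + 1)).1.1 - (sq (n + k)).1.1)) := by
        rw [show n + (k + 1) = n + k + 1 from rfl]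
        push_cast
        ring
      rw [e]
      exact v_sub_lt ih h1
  have hD : ∀ n m : ℕ, n < m → v ((sq m).1.1 - (sq n).1.1) = v (y1 - y) := by
    intro n m hnm
    obtain ⟨k, rfl⟩ := Nat.exists_eq_add_of_lt hnm
    have h1 := hC n (k + 1)
    have h2 : v (((k + 1 : ℕ) : K) * (y1 - y)) = v (y1 - y) := by
      rw [map_mul, hV.nat _ (Nat.succ_ne_zero k), one_mul]
    rw [v_sub_comm, ← h2] at h1
    have h3 := v_eq_of_sub_lt h1
    rw [h2] at h3
    exact h3
  obtain ⟨N, hN⟩ : ∃ N, ∀ n, N ≤ n → (sq n).1.1 ≠ y := by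
    by_cases hb : ∃ n, (sq n).1.1 = y
    · obtain ⟨n0, hn0⟩ := hb
      refine ⟨n0 + 1, fun n hn h => ?_⟩
      have := hD n0 n hn
      rw [h, hn0, sub_self, map_zero] at this
      rw [← this] at hα
      exact lt_irrefl _ hα
    · push Not at hb
      exact ⟨0, fun n _ => hb n⟩
  obtain ⟨n, m, hnm, f, h1, h2⟩ := no_inf hK hV h0 hnt hy hz hlin
    (fun n => (sq (N + n)).1.1) (fun n => (sq (N + n)).1.2)
    (fun n => hN _ (Nat.le_add_right _ _)) (fun n => (sq (N + n)).2)
  have h3 : RVeq v (f * ((sq (N + n)).1.1 - y)) (f * ((sq (N + m)).1.1 - y)) :=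
    h1.trans ((hB _).symm.trans ((hB _).trans h2.symm))
  have h5 : v ((sq (N + n)).1.1 - y) ≤ v (y1 - y) := by
    have h6 : v ((sq (N + n)).1.1 - y2) ≤ v (y1 - y) := by
      rcases Nat.eq_zero_or_pos (N + n) with h | h
      · rw [h, hs0]; simp
      · exact (hD 0 _ h).le
    exact v_tri h6 hle
  rcases h3 with ⟨h3, _⟩ | h3
  · rcases h1 with ⟨_, h1⟩ | h1
    · have := (hB (N + n)).v_eq
      rw [h1, map_zero] at this
      rw [← this] at hcon
      exact absurd hcon not_lt_zero
    · rw [h3, map_zero] at h1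
      exact absurd h1 not_lt_zero
  · rw [← mul_sub, map_mul, map_mul] at h3
    have h4 : v ((sq (N + n)).1.1 - y - ((sq (N + m)).1.1 - y)) < v ((sq (N + n)).1.1 - y) :=
      lt_of_mul_lt_mul_left' h3
    have e : (sq (N + n)).1.1 - y - ((sq (N + m)).1.1 - y) =
      -((sq (N + m)).1.1 - (sq (N + n)).1.1) := by ring
    rw [e, Valuation.map_neg, hD _ _ (Nat.add_lt_add_left hnm N)] at h4
    exact absurd (h4.trans_le h5) (lt_irrefl _)

end

end Pool.Agent.R611.HM
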