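import Pool.Agent.R611.CO.A4

/-!
# Coarsening: images of algebraic points are close in the coarse sense
-/

set_option autoImplicit false
set_option linter.unusedSectionVars false

namespace Pool.Agent.R611.HM

open FirstOrder Language Structure Set

universe u w w'

variable {L : FirstOrder.Language.{u, u}} {K : Type u} [L.Structure K] [Field K]
variable {Γ : Type w} [LinearOrderedCommGroupWithZero Γ] {v : Valuation K Γ}
variable {Γ' : Type w'} [LinearOrderedCommGroupWithZero Γ'] {vc : Valuation K Γ'}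

theorem div_mem_acl (hV : VF L v) {ι : Type} [Finite ι] {a : ι → K} {x y : K}
    (hx : x ∈ acl L a) (hy : y ∈ acl L a) (hy0 : y ≠ 0) : x / y ∈ acl L a := by
  let P : (Bool → K) → K → Prop := fun w x => x * w false = w true ∧ w false ≠ 0
  refine acl_trans (a := fun b : Bool => if b then x else y) (b := a)
    (by rintro (_ | _) <;> simpa) ?_
  refine ⟨P, ⟨?_, ?_⟩, ?_⟩
  · exact Df.and (Df.eq (hV.fmul (dvar _) (dvar _)) (dvar _)) (Df.eq (dvar _) hV.fzero).not
  · refine Set.Subsingleton.finite ?_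
    rintro x ⟨hx1, hx2⟩ x' ⟨hx3, _⟩
    exact mul_right_cancel₀ hx2 (hx1.trans hx3.symm)
  · refine ⟨?_, ?_⟩
    · simp only [if_true, if_false, Bool.false_eq_true]
      rw [div_mul_cancel₀ _ hy0]
    · simpa using hy0

theorem nr1.fine (hvw : ∀ x y, v x ≤ v y → vc x ≤ vc y) {ι : Type} {a : ι → K} {y y' : K}
    (h : nr1 L vc a y y') : nr1 L v a y y' := by
  intro c hc
  by_contra h1
  exact absurd (h c hc) (not_lt.2 (hvw _ _ (not_lt.1 h1)))

section

variable (hK : Satur L K) (hV : VF L v) (h0 : H0R L v) (hnt : ∃ t : K, t ≠ 0 ∧ v t < 1)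
variable (hvw : ∀ x y, v x ≤ v y → vc x ≤ vc y)

include hK hV h0 hnt hvw

theorem coarse_near {ι : Type} [Finite ι] {a : ι → K} {y z y1 z1 : K}
    (hn : nr1 L vc a y y1) (hz : z ∈ acl L (oc y a)) (hE : EP L v a y z y1 z1) :
    RVeq vc z z1 := by
  have hlt : ∀ x y, vc x < vc y → v x < v y := fun x y h => by
    by_contra h1
    exact absurd h (not_lt.2 (hvw _ _ (not_lt.1 h1)))
  have hy : y ∉ acl L a := hn.notMem
  by_cases hza : z ∈ acl L a
  · have h1 : z = z1 := hE.snd.uniq hK hV hza
    rw [← h1]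
    exact RVeq.refl _
  have hzz : nr1 L v a z z1 := hE.snd.nr hK hV h0 hza
  suffices h : ∀ c ∈ acl L a, vc (z1 - z) < vc (z - c) by
    right
    have h1 := h 0 (zero_mem_acl hV a)
    rwa [sub_zero, v_sub_comm] at h1
  intro c hc
  by_cases hlin : ∃ e ∈ acl L a, ∃ g ∈ acl L a, z = g + e * y
  · obtain ⟨e, he, g, hg, rfl⟩ := hlin
    have he0 : e ≠ 0 := by
      rintro rfl
      rw [zero_mul, add_zero] at hza
      exact hza hg
    obtain ⟨e', h1⟩ := RE.ext hK hV h0 hE e
    obtain ⟨g', h2⟩ := RE.ext hK hV h0 h1 g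
    have h3 : e = e' := RE.uniq (b := a) hK hV (h1.sub
      (fun o => o.elim none (fun i => some (some (some i))))
      (by rintro (_ | i) <;> rfl) (by rintro (_ | i) <;> rfl)) he
    have h4 : g = g' := RE.uniq (b := a) hK hV (h2.sub
      (fun o => o.elim none (fun i => some (some (some (some i)))))
      (by rintro (_ | i) <;> rfl) (by rintro (_ | i) <;> rfl)) hg
    subst h3 h4
    have hD : Df L (fun w : Option (Option (Option (Option ι))) → K =>
        w (some (some none)) - w (some none) * w (some (some (some none))) = w none) :=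
      Df.eq (hV.fsub (dvar _) (hV.fmul (dvar _) (dvar _))) (dvar _)
    have h5 := h2.df hD (by change g + e * y - e * y = g; ring)
    change z1 - e * y1 = g at h5
    have h6 : z1 - (g + e * y) = e * (y1 - y) := by rw [← h5]; ring
    have hc' : (c - g) / e ∈ acl L a := div_mem_acl hV (sub_mem_acl hV hc hg) he he0
    have h7 := hn _ hc'
    have h8 : g + e * y - c = e * (y - (c - g) / e) := by
      field_simp
      ring
    rw [h6, h8, map_mul, map_mul]
    exact mul_lt_mul_of_pos_left h7 ((Valuation.pos_iff vc).2 he0)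
  · by_contra hcon
    rw [not_lt] at hcon
    have hzc : z - c ≠ 0 := sub_ne_zero.2 fun h => hza (h ▸ hc)
    have hv1 : v (z1 - z) < v (z - c) := hzz c hc
    have hvc : vc (z1 - z) = vc (z - c) := le_antisymm (hvw _ _ hv1.le) hcon
    have hvc0 : vc (z - c) ≠ 0 := (Valuation.ne_zero_iff vc).2 hzc
    have hz1z : z1 - z ≠ 0 := by
      intro h
      rw [h, map_zero] at hvc
      exact hvc0 hvc.symm
    have hy1 : y1 ≠ y := hE.fst_ne hK hV h0 hz (sub_ne_zero.1 hz1z)
    have hy10 : y1 - y ≠ 0 := sub_ne_zero.2 hy1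
    obtain ⟨u, hu⟩ : ∃ u, u = (z1 - z) / (z - c) := ⟨_, rfl⟩
    have hu0 : u ≠ 0 := by rw [hu]; exact div_ne_zero hz1z hzc
    have huz : u * (z - c) = z1 - z := by rw [hu, div_mul_cancel₀ _ hzc]
    have hvu : v u ≤ 1 := by
      have h1 : v u * v (z - c) < 1 * v (z - c) := by
        rw [← map_mul, huz, one_mul]
        exact hv1
      exact (lt_of_mul_lt_mul_right h1 zero_le).le
    have hvcu : vc u = 1 := by
      rw [hu, map_div₀, hvc, div_self hvc0]
    have hw1 : ∀ n : ℕ, vc ((y1 - y) / u ^ n) = vc (y1 - y) := fun n => by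
      rw [map_div₀, map_pow, hvcu, one_pow, div_one]
    have hn1 : ∀ n : ℕ, nr1 L v a y (y + (y1 - y) / u ^ n) := fun n =>
      nr1.fine hvw (hn.of_le (by rw [add_sub_cancel_left, hw1]))
    choose zs hzs using fun n : ℕ => RE.ext hK hV h0 (h0 _ a _ _ (hn1 n)) z
    obtain ⟨n, m, hnm, f, h1, h2⟩ := no_inf hK hV h0 hnt hy hz hlin
      (fun n => y + (y1 - y) / u ^ n) zs (fun n h => by
        have h1 : (y1 - y) / u ^ n = 0 := by
          have : y + (y1 - y) / u ^ n = y := h
          exact left_eq_add.1 this.symm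
        rcases div_eq_zero_iff.1 h1 with h1 | h1
        · exact hy10 h1
        · exact pow_ne_zero n hu0 h1) hzs
    obtain ⟨k, rfl⟩ := Nat.exists_eq_add_of_lt hnm
    have e1 := h1.v_eq
    have e2 := h2.v_eq
    simp only [add_sub_cancel_left] at e1 e2
    have e3 : f * ((y1 - y) / u ^ n) = f * ((y1 - y) / u ^ (n + k + 1)) * u ^ (k + 1) := by
      field_simp
      ring
    have e4 : v (zs n - z) = v (zs (n + k + 1) - z) * v u ^ (k + 1) := by
      rw [e1, e3, map_mul, e2, map_pow]
    have e5 : v (zs (n + k + 1) - z) < v (z - c) := by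
      have := RE.nr (a := a) (y := z) (y' := zs (n + k + 1)) hK hV h0
        (EP.snd (y := y) (y1 := y + (y1 - y) / u ^ (n + k + 1)) (hzs (n + k + 1))) hza
      exact this c hc
    have e6 : v (zs n - z) < v (z1 - z) := by
      have h3 : v (zs n - z) ≤ v (zs (n + k + 1) - z) * v u := by
        rw [e4]
        refine mul_le_mul_right ?_ _
        rw [pow_succ]
        exact mul_le_of_le_one_left' (pow_le_one' hvu k)
      refine h3.trans_lt ?_
      rw [← huz, map_mul, mul_comm (v u)]
      exact mul_lt_mul_of_pos_right e5 ((Valuation.pos_iff v).2 hu0)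
    have e7 := mono_pairs hK hV h0 hnt hy hz hlin (hzs n) hE (by
      rw [add_sub_cancel_left]
      have h3 : (y1 - y) = (y1 - y) / u ^ n * u ^ n := by
        field_simp
      conv_lhs => rw [h3, map_mul]
      exact mul_le_of_le_one_right' (by rw [map_pow]; exact pow_le_one' hvu n))
    exact absurd e6 (not_lt.2 e7)

omit hnt hvw in
theorem RE.extT {ι : Type} [Finite ι] {a a' : ι → K} (h : RE L v a a') (n : ℕ)
    (z : Fin n → K) : ∃ z' : Fin n → K, RE L v (Sum.elim a z) (Sum.elim a' z') := by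
  induction n with
  | zero =>
    refine ⟨z, h.sub (Sum.elim id (fun i => i.elim0)) ?_ ?_⟩
    · rintro (i | i)
      · rfl
      · exact i.elim0
    · rintro (i | i)
      · rfl
      · exact i.elim0
  | succ n ih =>
    obtain ⟨z', h1⟩ := ih (fun i => z i.castSucc)
    obtain ⟨y', h2⟩ := h1.ext hK hV h0 (z (Fin.last n))
    refine ⟨Fin.snoc (α := fun _ => K) z' y', h2.sub (Sum.elim (fun i => some (Sum.inl i))
      (fun k => Fin.lastCases (motive := fun _ => Option (ι ⊕ Fin n)) none
        (fun j => some (Sum.inr j)) k)) ?_ ?_⟩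
    · rintro (i | i)
      · rfl
      · refine Fin.lastCases ?_ (fun j => ?_) i
        · simp [oc]
        · simp [oc]
    · rintro (i | i)
      · rfl
      · refine Fin.lastCases ?_ (fun j => ?_) i
        · simp [oc]
        · simp [oc]

variable (hVc : VF L vc)

include hVc

/-- moving the auxiliary parameters into the algebraic closure -/
theorem coarse_base {ι : Type} [Finite ι] {a : ι → K} {y y' : K} (hn : nr1 L vc a y y') (n : ℕ)
    (z : Fin n → K) : ∃ (ι' : Type) (_ : Finite ι') (b : ι' → K) (σ : ι → ι'),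
      (∀ i, b (σ i) = a i) ∧ nr1 L vc b y y' ∧ ∃ e : Fin n → K, ∀ k, e k ∈ acl L (oc y b) ∧
        RVeq vc (z k) (e k) := by
  induction n with
  | zero => exact ⟨ι, inferInstance, a, id, fun _ => rfl, hn, z, fun k => k.elim0⟩
  | succ n ih =>
    obtain ⟨ι', hι', b, σ, hσ, hb, e, he⟩ := ih (fun i => z i.castSucc)
    by_cases hadd : nr1 L vc (oc (z (Fin.last n)) b) y y'
    · refine ⟨Option ι', inferInstance, oc (z (Fin.last n)) b, fun i => some (σ i), hσ, hadd,
        Fin.snoc (α := fun _ => K) e (z (Fin.last n)), fun k => ?_⟩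
      refine Fin.lastCases ?_ (fun j => ?_) k
      · rw [Fin.snoc_last]
        exact ⟨acl_le_oc _ _ (mem_acl_oc _ _), RVeq.refl _⟩
      · rw [Fin.snoc_castSucc]
        refine ⟨acl_oc_le (fun i => acl_le_oc _ _ (acl_le_oc _ _ (mem_acl_self b i)))
          (mem_acl_oc _ _) (he j).1, (he j).2⟩
    · unfold nr1 at hadd
      push Not at hadd
      obtain ⟨c, hc, hcy⟩ := hadd
      have h1 : nr1 L vc b y c := hb.of_le (by rw [v_sub_comm]; exact hcy)
      have h2 : z (Fin.last n) ∈ acl L (oc c b) := exch0 hK hV h0 hnt h1.notMem' hc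
      obtain ⟨e', h3⟩ := RE.ext hK hV h0 (h0 _ b _ _ (nr1.fine hvw h1.symm)) (z (Fin.last n))
      have h4 := coarse_near hK hV h0 hnt hvw h1.symm h2 h3
      have h5 : e' ∈ acl L (oc y b) := RE.alg h3 h2
      refine ⟨ι', inferInstance, b, σ, hσ, hb, Fin.snoc (α := fun _ => K) e e', fun k => ?_⟩
      refine Fin.lastCases ?_ (fun j => ?_) k
      · rw [Fin.snoc_last]
        exact ⟨h5, h4⟩
      · rw [Fin.snoc_castSucc]
        exact he j

/-- Main theorem: 0-h-minimality passes to coarsenings. -/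
theorem h0r_coarse : H0R L vc := by
  intro ι _ a y y' hn κ _ P hP z hz
  obtain ⟨n, ⟨q⟩⟩ := Finite.exists_equiv_fin κ
  obtain ⟨ι', hι', b, σ, hσ, hb, e, he⟩ := coarse_base hK hV h0 hnt hvw hVc hn n
    (fun k => z (q.symm k))
  have h1 := h0 _ b y y' (nr1.fine hvw hb)
  obtain ⟨e', h2⟩ := h1.extT hK hV h0 n e
  have hD : Df L (fun w : Option ι' ⊕ Fin n → K => ∃ t : κ → K,
      (∀ k, RVeq vc (t k) (w (Sum.inr (q k)))) ∧
      P (Sum.elim (oc (w (Sum.inl none)) (fun i => w (Sum.inl (some (σ i))))) t)) := by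
    refine Df.exT (Q := fun (t : κ → K) (w : Option ι' ⊕ Fin n → K) =>
      (∀ k, RVeq vc (t k) (w (Sum.inr (q k)))) ∧
      P (Sum.elim (oc (w (Sum.inl none)) (fun i => w (Sum.inl (some (σ i))))) t)) ?_
    refine Df.and (Df.all_fin fun k => hVc.rveq (dvar _) (dvar _)) ?_
    refine (hP.relabel (β := (Option ι' ⊕ Fin n) ⊕ κ) (Sum.elim
      (fun o => o.elim (Sum.inl (Sum.inl none)) (fun i => Sum.inl (Sum.inl (some (σ i)))))
      (fun k => Sum.inr k))).congr fun w => ?_
    apply iff_of_eq
    congr 1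
    funext i
    rcases i with (_ | i) | i <;> rfl
  have eb : (fun i => b (σ i)) = a := funext hσ
  obtain ⟨t, h3, h4⟩ := h2.df hD ⟨z, fun k => by
      have := (he (q k)).2
      simp only [Equiv.symm_apply_apply] at this
      exact this, by
      change P (Sum.elim (oc y (fun i => b (σ i))) z)
      rw [eb]
      exact hz⟩
  refine ⟨t, fun k => ?_, ?_⟩
  · have h5 : RVeq vc (t k) (e' (q k)) := h3 k
    have h6 : EP L v b y (e (q k)) y' (e' (q k)) :=
      h2.sub (fun o => o.elim (Sum.inr (q k)) (fun o' => Sum.inl o'))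
        (by rintro (_ | _ | i) <;> rfl) (by rintro (_ | _ | i) <;> rfl)
    have h7 := coarse_near hK hV h0 hnt hvw hb (he (q k)).1 h6
    have h8 := (he (q k)).2
    simp only [Equiv.symm_apply_apply] at h8
    exact h8.trans (h7.trans h5.symm)
  · have h4' : P (Sum.elim (oc y' (fun i => b (σ i))) t) := h4
    rwa [eb] at h4'

end

end Pool.Agent.R611.HM
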