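import Pool.Agent.R611.CO.A5
import Pool.Agent.R611.HM.X5

/-!
# RV-expansions, from types to the definition
-/

set_option autoImplicit false
set_option linter.unusedSectionVars false

namespace Pool.Agent.R611.HM

open FirstOrder Language Structure Set

universe u w w'

section up

variable {L L' : FirstOrder.Language.{u, u}} {K : Type u} [L.Structure K] [L'.Structure K]
  [Field K]
variable {Γ : Type w} [LinearOrderedCommGroupWithZero Γ] {v : Valuation K Γ}

theorem real_up (hK : Satur L K) (hV : VF L v) (h0 : H0R L v) (hX : RVX L L' v)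
    {α : Type} [Finite α] {n : ℕ} (ψ : L'.BoundedFormula α n) :
    ∀ w w' : α ⊕ Fin n → K, RE L v w w' →
      (ψ.Realize (fun i => w (Sum.inl i)) (fun i => w (Sum.inr i)) ↔
        ψ.Realize (fun i => w' (Sum.inl i)) (fun i => w' (Sum.inr i))) := by
  induction ψ with
  | falsum => exact fun _ _ _ => Iff.rfl
  | @equal n t1 t2 =>
    intro w w' h
    have hel : ∀ (w : α ⊕ Fin n → K), Sum.elim (fun i => w (Sum.inl i))
      (fun i => w (Sum.inr i)) = w := fun w => by
      funext i; rcases i with i | i <;> rfl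
    have hd : Df L (fun w : α ⊕ Fin n → K => t1.realize w = t2.realize w) :=
      Df.eq (term_dff hX t1) (term_dff hX t2)
    change t1.realize (Sum.elim _ _) = t2.realize (Sum.elim _ _) ↔
      t1.realize (Sum.elim _ _) = t2.realize (Sum.elim _ _)
    rw [hel, hel]
    exact h.dfi hd
  | @rel n l r ts =>
    intro w w' h
    have hel : ∀ (w : α ⊕ Fin n → K), Sum.elim (fun i => w (Sum.inl i))
      (fun i => w (Sum.inr i)) = w := fun w => by
      funext i; rcases i with i | i <;> rfl
    change RelMap r (fun i => (ts i).realize (Sum.elim _ _)) ↔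
      RelMap r (fun i => (ts i).realize (Sum.elim _ _))
    rw [hel, hel]
    rcases hX.rel _ r with hr | hr
    · have hd : Df L (fun w : α ⊕ Fin n → K => RelMap r (fun i => (ts i).realize w)) :=
        hr.comp (fun i => term_dff hX (ts i))
      exact h.dfi hd
    · exact hr _ _ fun i => h.fn (term_dff hX (ts i))
  | imp f1 f2 ih1 ih2 =>
    intro w w' h
    rw [BoundedFormula.realize_imp, BoundedFormula.realize_imp, ih1 w w' h, ih2 w w' h]
  | @all n f ih =>
    intro w w' h
    rw [BoundedFormula.realize_all, BoundedFormula.realize_all]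
    constructor
    · intro hw y'
      obtain ⟨y, hy⟩ := (h.symm hV).ext hK hV h0 y'
      have := ih _ _ (((hy.symm hV).comp (lsn n)))
      rw [lsn_real, lsn_real] at this
      exact this.1 (hw y)
    · intro hw y
      obtain ⟨y', hy⟩ := h.ext hK hV h0 y
      have := ih _ _ (hy.comp (lsn n))
      rw [lsn_real, lsn_real] at this
      exact this.2 (hw y')

theorem RE.up (hK : Satur L K) (hV : VF L v) (h0 : H0R L v) (hX : RVX L L' v) {ι : Type}
    [Finite ι] {a a' : ι → K} (h : RE L v a a') : RE L' v a a' := by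
  intro κ _ P hP z hz
  obtain ⟨n, ⟨q⟩⟩ := Finite.exists_equiv_fin κ
  obtain ⟨z', h1⟩ := h.extT hK hV h0 n (fun i => z (q.symm i))
  have h2 : RE L v (Sum.elim a z) (Sum.elim a' (fun k => z' (q k))) :=
    h1.sub (Sum.map id q) (by
      rintro (i | i)
      · rfl
      · simp) (by
      rintro (i | i) <;> rfl)
  refine ⟨fun k => z' (q k), fun k => h2.rv (Sum.inr k), ?_⟩
  obtain ⟨φ, hφ⟩ := df_iff.1 hP
  have hφ2 : ∀ w : ι ⊕ κ → K, φ.Realize w ↔ BoundedFormula.Realize φ
      (fun i => w (Sum.elim id (fun i : Fin 0 => i.elim0) (Sum.inl i)))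
      (fun i => w (Sum.elim id (fun i : Fin 0 => i.elim0) (Sum.inr i))) := by
    intro w
    unfold Formula.Realize
    apply iff_of_eq
    refine congrArg _ ?_
    funext i
    exact i.elim0
  have h3 := real_up hK hV h0 hX φ _ _ (h2.comp (Sum.elim id (fun i : Fin 0 => i.elim0)))
  rw [← hφ2, ← hφ2, ← hφ, ← hφ] at h3
  exact h3.1 hz

theorem acl_mono_lang (hLL : ∀ {α : Type} {P : (α → K) → Prop}, Df L P → Df L' P) {ι : Type}
    (a : ι → K) : acl L a ⊆ acl L' a := by
  rintro c ⟨P, hP, hPc⟩
  exact ⟨P, ⟨hLL hP.1, hP.2⟩, hPc⟩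

theorem H0R.up (hK : Satur L K) (hV : VF L v) (h0 : H0R L v) (hX : RVX L L' v)
    (hLL : ∀ {α : Type} {P : (α → K) → Prop}, Df L P → Df L' P) : H0R L' v := by
  intro ι _ a y y' hn
  refine RE.up hK hV h0 hX (h0 ι a y y' fun c hc => hn c (acl_mono_lang hLL a hc))

end up

section

variable {L : FirstOrder.Language.{u, u}} {K : Type u} [L.Structure K] [Field K]
variable {Γ : Type w} [LinearOrderedCommGroupWithZero Γ] {v : Valuation K Γ}

theorem TH0_of_H0R (hK : Satur L K) (hV : VF L v) (h0 : H0R L v) : TH L v 0 := by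
  intro ι _ a Z hZ x l y y' _ hl1 hn
  have h1 : nr1 L v a y y' := nr.to1 hn hl1
  obtain ⟨S, hS, hm⟩ := (h0 ι a y y' h1).exists_mv hK hV hZ
  exact ⟨S, ⟨hS.el, hS.fin, fun i => hm (some i), hS.rig⟩, hm none, fun j => j.elim0⟩

end

end Pool.Agent.R611.HM
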