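import Pool.Agent.R611.HM.Def

/-!
# Coarse Hensel minimality: the definitions
-/

set_option autoImplicit false

namespace Pool.Agent.R611.CO

open FirstOrder Language Structure Pool.Agent.R611.HM

universe u

/-- A single relation symbol, of arity one. -/
inductive CoRel : ℕ → Type u
  | coarse : CoRel 1

/-- The language with a single symbol, the unary relation symbol `CoRel.coarse`. -/
def CoLang : FirstOrder.Language.{u, u} := ⟨fun _ => PEmpty, CoRel⟩

/-- The symbols of the language of valued fields in the language `L_c`, which is `L` together with
one new unary relation symbol: addition and multiplication are those of `L`, and the symbol for the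
valuation ring is the new one. -/
def coSym {L : FirstOrder.Language.{u, u}} (sy : ValSymbols L) : ValSymbols (L.sum CoLang.{u}) where
  add := Sum.inl sy.add
  mul := Sum.inl sy.mul
  ring := Sum.inr CoRel.coarse

/-- The new symbol is interpreted on `K` by the subring `Oc`. -/
@[reducible]
def coStr {K : Type u} [Field K] (Oc : ValuationSubring K) : CoLang.{u}.Structure K where
  funMap := fun f => PEmpty.elim f
  RelMap := fun {_} r => match r with | CoRel.coarse => fun x => x 0 ∈ Oc

/-- The theory `T` is `l`-h^coars-minimal: for every model `K` of `T`, with valuation ring `O`, and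
every valuation ring `Oc` of `K` with `O ⊆ Oc ⊊ K` and residue field of characteristic zero, the
theory of `K` in the language `L_c`, which is `L` together with a predicate for `Oc`, is
`l`-h-minimal with respect to `Oc`. -/
def HCoarsMin {L : FirstOrder.Language.{u, u}} (sy : ValSymbols L) (T : L.Theory) (l : ℕ∞) : Prop :=
  ∀ (K : Type u) [L.Structure K] [Field K] (O : ValuationSubring K), K ⊨ T → IsValued sy O →
    ∀ Oc : ValuationSubring K, O ≤ Oc → Oc ≠ ⊤ → CharZero (IsLocalRing.ResidueField Oc) →
      letI : CoLang.{u}.Structure K := coStr Oc
      HMin (coSym sy) ((L.sum CoLang.{u}).completeTheory K) l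

end Pool.Agent.R611.CO
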