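import Pool.Agent.R611.CO.A7
import Pool.Agent.R611.CO.Def

/-!
# 0-h-minimality and coarse 0-h-minimality: transfer
-/

set_option autoImplicit false
set_option linter.unusedSectionVars false

namespace Pool.Agent.R611.CO

open FirstOrder Language Structure Set Pool.Agent.R611.HM

universe u w

section

theorem val_le_of_le {K : Type*} [Field K] {O Oc : ValuationSubring K} (h : O ≤ Oc) {x y : K}
    (hxy : O.valuation x ≤ O.valuation y) : Oc.valuation x ≤ Oc.valuation y := by
  rw [← O.mapOfLE_valuation_apply Oc h, ← O.mapOfLE_valuation_apply Oc h]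
  exact O.monotone_mapOfLE Oc h hxy

theorem charZero_of_nat {K : Type*} [Field K] (O : ValuationSubring K)
    (h : ∀ n : ℕ, n ≠ 0 → O.valuation (n : K) = 1) : CharZero (IsLocalRing.ResidueField O) := by
  refine charZero_of_inj_zero fun n hn => ?_
  by_contra hn0
  have h1 : O.valuation ((n : O) : K) = 1 := by
    have : ((n : O) : K) = (n : K) := by simp
    rw [this]
    exact h n hn0
  rw [← O.valuation_eq_one_iff, ← IsLocalRing.residue_ne_zero_iff_isUnit, map_natCast] at h1
  exact h1 hn

theorem nat_of_le {K : Type*} [Field K] {O Oc : ValuationSubring K} (hle : O ≤ Oc)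
    (h : ∀ n : ℕ, n ≠ 0 → O.valuation (n : K) = 1) (n : ℕ) (hn : n ≠ 0) :
    Oc.valuation (n : K) = 1 := by
  have h1 := h n hn
  refine le_antisymm ?_ ?_
  · have := val_le_of_le (x := (n : K)) (y := 1) hle (by rw [h1, map_one])
    rwa [map_one] at this
  · have := val_le_of_le (x := 1) (y := (n : K)) hle (by rw [h1, map_one])
    rwa [map_one] at this

end

section down

variable {L L' : FirstOrder.Language.{u, u}} {K : Type u} [L.Structure K] [L'.Structure K]
  [Field K] {Γ : Type w} [LinearOrderedCommGroupWithZero Γ] {v : Valuation K Γ}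

theorem df_down0 (hX : RVX L L' v)
    (hr : ∀ (n : ℕ) (r : L'.Relations n), Df L (fun w : Fin n → K => RelMap r w))
    {α : Type} [Finite α] {n : ℕ} (ψ : L'.BoundedFormula α n) :
    Df L (fun w : α ⊕ Fin n → K => ψ.Realize (fun i => w (Sum.inl i))
      (fun i => w (Sum.inr i))) := by
  induction ψ with
  | falsum => exact Df.const _
  | @equal n t1 t2 =>
    have hel : ∀ (w : α ⊕ Fin n → K), Sum.elim (fun i => w (Sum.inl i))
      (fun i => w (Sum.inr i)) = w := fun w => by
      funext i; rcases i with i | i <;> rfl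
    refine (Df.eq (term_dff hX t1) (term_dff hX t2)).congr fun w => ?_
    change _ ↔ t1.realize (Sum.elim _ _) = t2.realize (Sum.elim _ _)
    rw [hel]
  | @rel n l r ts =>
    have hel : ∀ (w : α ⊕ Fin n → K), Sum.elim (fun i => w (Sum.inl i))
      (fun i => w (Sum.inr i)) = w := fun w => by
      funext i; rcases i with i | i <;> rfl
    refine ((hr _ r).comp (fun i => term_dff hX (ts i))).congr fun w => ?_
    change _ ↔ RelMap r (fun i => (ts i).realize (Sum.elim _ _))
    rw [hel]
  | imp f1 f2 ih1 ih2 =>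
    exact (Df.imp ih1 ih2).congr fun w => by rw [BoundedFormula.realize_imp]
  | @all n f ih =>
    have h1 : Df L (fun w : Option (α ⊕ Fin n) → K =>
        f.Realize (fun i => w (lsn n (Sum.inl i))) (fun i => w (lsn n (Sum.inr i)))) :=
      ih.relabel (lsn n)
    refine (Df.all1 (Q := fun y (w : α ⊕ Fin n → K) =>
      f.Realize (fun i => oc y w (lsn n (Sum.inl i))) (fun i => oc y w (lsn n (Sum.inr i))))
      (h1.congr fun w => ?_)).congr fun w => ?_
    · have : oc (w none) (fun i => w (some i)) = w := by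
        funext o
        cases o <;> rfl
      rw [this]
    · rw [BoundedFormula.realize_all]
      exact forall_congr' fun y => lsn_real f w y

theorem df_down (hX : RVX L L' v)
    (hr : ∀ (n : ℕ) (r : L'.Relations n), Df L (fun w : Fin n → K => RelMap r w))
    {α : Type} [Finite α] {P : (α → K) → Prop} (hP : Df L' P) : Df L P := by
  obtain ⟨φ, hφ⟩ := df_iff.1 hP
  have h1 := (df_down0 hX hr φ).relabel (β := α) (Sum.elim id (fun i : Fin 0 => i.elim0))
  refine h1.congr fun w => ?_
  rw [hφ]
  unfold Formula.Realize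
  apply iff_of_eq
  refine congrArg _ ?_
  funext i
  exact i.elim0

theorem definable_down (hX : RVX L L' v)
    (hr : ∀ (n : ℕ) (r : L'.Relations n), Df L (fun w : Fin n → K => RelMap r w))
    {α : Type} [Finite α] {A : Set K} {Y : Set (α → K)} (hY : A.Definable L' Y) :
    A.Definable L Y := by
  obtain ⟨n, a, φ, ha, hφ⟩ := df_of_definable hY
  have h1 : Df L' (fun w : α ⊕ Fin n → K => φ.Realize (Sum.elim (fun i => w (Sum.inr i))
      (fun i => w (Sum.inl i)))) := by
    rw [df_iff]
    refine ⟨φ.relabel (Sum.elim Sum.inr Sum.inl), fun w => ?_⟩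
    rw [Formula.realize_relabel]
    apply iff_of_eq
    refine congrArg (Formula.Realize _) ?_
    funext i
    rcases i with i | i <;> rfl
  have h2 := (df_down hX hr h1).params a ha
  convert h2 using 1
  ext w
  rw [hφ]
  rfl

end down

section joint

variable {L : FirstOrder.Language.{u, u}}

/-- joint elementary extension which is saturated -/
theorem exists_joint_satur {K M : Type u} [L.Structure K] [L.Structure M] [Nonempty K]
    (h : K ≅[L] M) : ∃ (N : Type u) (_ : L.Structure N) (_ : K ↪ₑ[L] N) (_ : M ↪ₑ[L] N),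
      Satur L N := by
  classical
  let I : Type u := Σ n : ℕ, {q : (Fin n → M) × L.Formula (Fin n) // q.2.Realize q.1}
  let S : Set (L.Formula (M ⊕ K)) :=
    Set.range fun i : I => (i.2.1.2).relabel (fun k => (Sum.inl (i.2.1.1 k) : M ⊕ K))
  obtain ⟨N, iN, j, v, hv⟩ := compactU (L := L) (U := K) (δ := M) S (by
    intro S₀ hS₀ hfin
    have hf := hfin.to_subtype
    choose ix hix using fun ψ : S₀ => hS₀ ψ.2
    let D : Set M := ⋃ ψ : S₀, Set.range (ix ψ).2.1.1
    have hD : D.Finite := Set.finite_iUnion fun ψ => Set.finite_range _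
    have := hD.to_subtype
    let Φ : L.Formula D := Formula.iInf (fun ψ : S₀ => (ix ψ).2.1.2.relabel
      (fun k => (⟨(ix ψ).2.1.1 k, Set.mem_iUnion.2 ⟨ψ, k, rfl⟩⟩ : D)))
    have hΦ : ∀ {Q : Type u} [L.Structure Q] (u : D → Q), Φ.Realize u ↔ ∀ ψ : S₀,
        (ix ψ).2.1.2.Realize (fun k => u ⟨(ix ψ).2.1.1 k, Set.mem_iUnion.2 ⟨ψ, k, rfl⟩⟩) := by
      intro Q _ u
      rw [Formula.realize_iInf]
      refine forall_congr' fun ψ => ?_
      rw [Formula.realize_relabel]
      rfl
    let χ : L.Sentence := (Φ.relabel (Sum.inr : D → Empty ⊕ D) : L.Formula (Empty ⊕ D)).iExs D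
    have hχ : ∀ {Q : Type u} [L.Structure Q], Q ⊨ χ ↔ ∃ u : D → Q, Φ.Realize u := by
      intro Q _
      change Formula.Realize _ _ ↔ _
      rw [Formula.realize_iExs]
      refine exists_congr fun u => ?_
      rw [Formula.realize_relabel]
      rfl
    have h1 : M ⊨ χ := hχ.2 ⟨fun d => d.1, (hΦ _).2 fun ψ => (ix ψ).2.2⟩
    rw [← h.realize_sentence, hχ] at h1
    obtain ⟨u, hu⟩ := h1
    rw [hΦ] at hu
    refine ⟨fun m => if hm : m ∈ D then u ⟨m, hm⟩ else Classical.arbitrary K, fun ψ hψ => ?_⟩
    have h2 := hix ⟨ψ, hψ⟩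
    have h3 := hu ⟨ψ, hψ⟩
    change ((_ : L.Formula _).relabel _ : L.Formula (M ⊕ K)) = ψ at h2
    rw [← h2, Formula.realize_relabel]
    convert h3 using 1
    funext k
    simp only [Function.comp, Sum.elim_inl]
    have hk : (ix ⟨ψ, hψ⟩).2.1.1 k ∈ D := Set.mem_iUnion.2 ⟨⟨ψ, hψ⟩, k, rfl⟩
    rw [dif_pos hk])
  let jM : M ↪ₑ[L] N := ⟨v, fun n φ x => by
    have one : ∀ φ : L.Formula (Fin n), φ.Realize x → φ.Realize (v ∘ x) := by
      intro φ hφ
      have h1 := hv _ ⟨(⟨n, ⟨(x, φ), hφ⟩⟩ : I), rfl⟩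
      change ((φ.relabel _ : L.Formula (M ⊕ K))).Realize _ at h1
      rw [Formula.realize_relabel] at h1
      exact h1
    refine ⟨fun h' => ?_, one φ⟩
    by_contra hc
    have := one (Formula.not φ) ((Formula.realize_not).2 hc)
    rw [Formula.realize_not] at this
    exact this h'⟩
  have : Nonempty N := ⟨j (Classical.arbitrary K)⟩
  obtain ⟨N', iN', j', hN'⟩ := exists_satur_extension (L := L) N
  exact ⟨N', iN', j'.comp j, j'.comp jM, hN'⟩

end joint

end Pool.Agent.R611.CO
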