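import Pool.Agent.R611.CO.A8

/-!
# 0-h-minimality and coarse 0-h-minimality: main theorem
-/

set_option autoImplicit false
set_option linter.unusedSectionVars false

namespace Pool.Agent.R611.CO

open FirstOrder Language Structure Set Pool.Agent.R611.HM

universe u w

variable {L : FirstOrder.Language.{u, u}}

/-- the symbols of the fine valued field in the larger language -/
def fiSym (sy : ValSymbols L) : ValSymbols (L.sum CoLang.{u}) where
  add := Sum.inl sy.add
  mul := Sum.inl sy.mul
  ring := Sum.inl sy.ring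

/-- the new symbol -/
def co : (L.sum CoLang.{u}).Relations 1 := Sum.inr CoRel.coarse

section transfer

variable {K N : Type u} [L.Structure K] [(L.sum CoLang.{u}).Structure N] [Field K]
  {O Oc : ValuationSubring K} {sy : ValSymbols L}

theorem isValued_fi (hO : IsValued sy O) :
    letI : CoLang.{u}.Structure K := coStr Oc
    IsValued (fiSym sy) O := by
  let _ : CoLang.{u}.Structure K := coStr Oc
  exact ⟨fun x y => hO.add x y, fun x y => hO.mul x y, fun x => hO.ring x, hO.char_zero⟩

theorem isValued_co (hO : IsValued sy O) (hc : CharZero (IsLocalRing.ResidueField Oc)) :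
    letI : CoLang.{u}.Structure K := coStr Oc
    IsValued (coSym sy) Oc := by
  let _ : CoLang.{u}.Structure K := coStr Oc
  exact ⟨fun x y => hO.add x y, fun x y => hO.mul x y, fun x => Iff.rfl, hc⟩

theorem coarse_transfer [CoLang.{u}.Structure K] (j : K ↪ₑ[L.sum CoLang.{u}] N)
    (h : IsValued (fiSym sy) O) (hc : IsValued (coSym sy) Oc) (hle : O ≤ Oc) :
    ∃ (_ : Field N) (O' Oc' : ValuationSubring N), IsValued (fiSym sy) O' ∧
      IsValued (coSym sy) Oc' ∧ O' ≤ Oc' := by
  obtain ⟨iN, O', hO'⟩ := exists_valued j h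
  have hV := hO'.vf
  have hadd := j_add j h hO'
  have hmul := j_mul j h hO'
  have hzero := j_zero j h hO'
  have hsub := j_sub j h hO'
  have hmem : ∀ x : K, RelMap (coSym sy).ring ![j x] ↔ x ∈ Oc := raw_mem j hc
  have c_add : ∀ x y : N, RelMap (coSym sy).ring ![x] → RelMap (coSym sy).ring ![y] →
      RelMap (coSym sy).ring ![x + y] := fun x y =>
    all_transfer j (γ := Fin 2) (α := Empty) (P := fun w => RelMap (coSym sy).ring ![w (Sum.inr 0)] →
      RelMap (coSym sy).ring ![w (Sum.inr 1)] →
        RelMap (coSym sy).ring ![w (Sum.inr 0) + w (Sum.inr 1)])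
      (Df.imp (df_rel1' _ (DfF.var _)) (Df.imp (df_rel1' _ (DfF.var _))
        (df_rel1' _ (hV.fadd (DfF.var _) (DfF.var _))))) Empty.elim (fun y => by
        change RelMap (coSym sy).ring ![j (y 0)] → RelMap (coSym sy).ring ![j (y 1)] →
          RelMap (coSym sy).ring ![j (y 0) + j (y 1)]
        rw [← hadd, hmem, hmem, hmem]
        exact fun h1 h2 => Oc.add_mem _ _ h1 h2) ![x, y]
  have c_mul : ∀ x y : N, RelMap (coSym sy).ring ![x] → RelMap (coSym sy).ring ![y] →
      RelMap (coSym sy).ring ![x * y] := fun x y =>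
    all_transfer j (γ := Fin 2) (α := Empty) (P := fun w => RelMap (coSym sy).ring ![w (Sum.inr 0)] →
      RelMap (coSym sy).ring ![w (Sum.inr 1)] →
        RelMap (coSym sy).ring ![w (Sum.inr 0) * w (Sum.inr 1)])
      (Df.imp (df_rel1' _ (DfF.var _)) (Df.imp (df_rel1' _ (DfF.var _))
        (df_rel1' _ (hV.fmul (DfF.var _) (DfF.var _))))) Empty.elim (fun y => by
        change RelMap (coSym sy).ring ![j (y 0)] → RelMap (coSym sy).ring ![j (y 1)] →
          RelMap (coSym sy).ring ![j (y 0) * j (y 1)]
        rw [← hmul, hmem, hmem, hmem]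
        exact fun h1 h2 => Oc.mul_mem _ _ h1 h2) ![x, y]
  have c_neg : ∀ x : N, RelMap (coSym sy).ring ![x] → RelMap (coSym sy).ring ![0 - x] := fun x =>
    all_transfer j (γ := Fin 1) (α := Empty) (P := fun w => RelMap (coSym sy).ring ![w (Sum.inr 0)] →
      RelMap (coSym sy).ring ![0 - w (Sum.inr 0)])
      (Df.imp (df_rel1' _ (DfF.var _)) (df_rel1' _ (hV.fsub hV.fzero (DfF.var _))))
      Empty.elim (fun y => by
        change RelMap (coSym sy).ring ![j (y 0)] → RelMap (coSym sy).ring ![0 - j (y 0)]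
        rw [← hzero, ← hsub, hmem, hmem, zero_sub]
        exact fun h1 => Oc.neg_mem _ h1) ![x]
  have c_le : ∀ x : N, x ∈ O' → RelMap (coSym sy).ring ![x] := fun x hx =>
    all_transfer j (γ := Fin 1) (α := Empty) (P := fun w => RelMap (fiSym sy).ring ![w (Sum.inr 0)] →
      RelMap (coSym sy).ring ![w (Sum.inr 0)])
      (Df.imp (df_rel1' _ (DfF.var _)) (df_rel1' _ (DfF.var _)))
      Empty.elim (fun y => by
        change RelMap (fiSym sy).ring ![j (y 0)] → RelMap (coSym sy).ring ![j (y 0)]
        rw [hmem, raw_mem j h]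
        exact fun h1 => hle h1) ![x] ((hO'.ring x).2 hx)
  let S : Subring N :=
    { carrier := {x | RelMap (coSym sy).ring ![x]}
      mul_mem' := fun {x y} hx hy => c_mul x y hx hy
      one_mem' := c_le 1 O'.one_mem
      add_mem' := fun {x y} hx hy => c_add x y hx hy
      zero_mem' := c_le 0 O'.zero_mem
      neg_mem' := fun {x} hx => by
        have := c_neg x hx
        rwa [zero_sub] at this }
  let Oc' : ValuationSubring N := ValuationSubring.ofLE O' S (fun x hx => c_le x hx)
  have hOle : O' ≤ Oc' := fun x hx => c_le x hx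
  have hc' : IsValued (coSym sy) Oc' :=
    ⟨hO'.add, hO'.mul, fun x => Iff.rfl, charZero_of_nat _ (nat_of_le hOle hV.nat)⟩
  exact ⟨iN, O', Oc', hO', hc', hOle⟩

end transfer

section main

variable {K : Type u} [L.Structure K] [Field K]

theorem exists_small_of_ne_top {O : ValuationSubring K} (h : O ≠ ⊤) :
    ∃ t : K, t ≠ 0 ∧ O.valuation t < 1 := by
  obtain ⟨x, hx⟩ : ∃ x, x ∉ O := by
    by_contra hc
    push Not at hc
    exact h (eq_top_iff.2 fun x _ => hc x)
  have hx0 : x ≠ 0 := fun h => hx (h ▸ O.zero_mem)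
  refine ⟨x⁻¹, inv_ne_zero hx0, ?_⟩
  rw [← O.valuation_le_one_iff, not_le] at hx
  rw [map_inv₀]
  exact inv_lt_one_of_one_lt₀ hx

/-- 0-h-minimality implies coarse 0-h-minimality. -/
theorem coars_of_hMin {sy : ValSymbols L} {T : L.Theory} (h : HMin sy T 0) :
    HCoarsMin sy T 0 := by
  intro K _ _ O hKT hO Oc hle hnt hc
  let _ : CoLang.{u}.Structure K := coStr Oc
  intro K' _ _ O' hK' hO'
  have hKK : K ≅[L.sum CoLang.{u}] K' := by
    rw [elementarilyEquivalent_iff]
    intro φ
    constructor
    · intro hφ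
      exact Theory.realize_sentence_of_mem ((L.sum CoLang.{u}).completeTheory K)
        (mem_completeTheory.2 hφ)
    · intro hφ
      by_contra hcon
      have h1 : K ⊨ φ.not := (Sentence.realize_not K).2 hcon
      have h2 : K' ⊨ φ.not := Theory.realize_sentence_of_mem
        ((L.sum CoLang.{u}).completeTheory K) (mem_completeTheory.2 h1)
      exact (Sentence.realize_not K').1 h2 hφ
  have hfi : IsValued (fiSym sy) O := isValued_fi (Oc := Oc) hO
  have hco : IsValued (coSym sy) Oc := isValued_co hO hc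
  obtain ⟨N, iN, j, j', hN⟩ := exists_joint_satur hKK
  obtain ⟨fN, ON, OcN, hON, hOcN, hleN⟩ := coarse_transfer j hfi hco hle
  let θ : L →ᴸ L.sum CoLang.{u} := LHom.sumInl
  let _ : L.Structure N := θ.reduct N
  have hNT : N ⊨ T := by
    rw [Theory.model_iff]
    intro φ hφ
    have h1 : K ⊨ φ := Theory.realize_sentence_of_mem T hφ
    have h2 : K ⊨ θ.onSentence φ := (LHom.realize_onSentence K θ φ).2 h1
    have h3 : N ⊨ θ.onSentence φ := (j.map_sentence _).1 h2
    exact (LHom.realize_onSentence N θ φ).1 h3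
  have hONL : IsValued sy ON :=
    ⟨fun x y => hON.add x y, fun x y => hON.mul x y, fun x => hON.ring x, hON.char_zero⟩
  have hm : HMinAt ON L 0 := h N ON hNT hONL
  have hLL : ∀ {α : Type} {P : (α → N) → Prop}, Df L P → Df (L.sum CoLang.{u}) P :=
    fun h => df_reduct θ h
  have hNL : Satur L N := by
    intro α β _ _ a Ps hPs hfin
    exact hN α β a Ps (fun P hP => hLL (hPs P hP)) hfin
  have hV : VF L ON.valuation := hONL.vf
  have hV' : VF (L.sum CoLang.{u}) ON.valuation := hON.vf
  have hVc : VF (L.sum CoLang.{u}) OcN.valuation := hOcN.vf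
  have hX : RVX L (L.sum CoLang.{u}) ON.valuation := by
    refine ⟨fun n f => ?_, fun n r => ?_⟩
    · rcases f with f | f
      · exact df_fun (L := L) f
      · exact f.elim
    · rcases r with r | r
      · exact Or.inl (df_rel (L := L) r)
      · right
        cases r
        intro x y hxy
        have e1 : ∀ x : Fin 1 → N, RelMap (co (L := L)) x ↔ x 0 ∈ OcN := by
          intro x
          rw [← hOcN.ring (x 0)]
          apply iff_of_eq
          refine congrArg (RelMap (co (L := L))) ?_
          funext i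
          fin_cases i
          rfl
        change RelMap (co (L := L)) x ↔ RelMap (co (L := L)) y
        rw [e1, e1, ← OcN.valuation_le_one_iff, ← OcN.valuation_le_one_iff]
        have h2 := (hxy 0).v_eq
        have h3 : OcN.valuation (x 0) = OcN.valuation (y 0) :=
          le_antisymm (val_le_of_le hleN h2.ge) (val_le_of_le hleN h2.le)
        rw [h3]
  have h0 : H0R L ON.valuation := fun ι _ a y y' hy => RE_of_nr1 hONL hm a y y' hy
  have h0' : H0R (L.sum CoLang.{u}) ON.valuation := h0.up hNL hV hX hLL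
  have hOnt : ON ≠ ⊤ := by
    intro htop
    have hOcnt : OcN = ⊤ := eq_top_iff.2 (htop ▸ hleN)
    refine hnt (eq_top_iff.2 fun x _ => ?_)
    rw [← j_mem j hco hOcN, hOcnt]
    exact ValuationSubring.mem_top _
  have h1 : H0R (L.sum CoLang.{u}) OcN.valuation :=
    h0r_coarse hN hV' h0' (exists_small_of_ne_top hOnt) (fun x y => val_le_of_le hleN) hVc
  exact hminAt_of_TH0 j' hO' hOcN hN (TH0_of_H0R hN hVc h1)

/-- the trivially valued case -/
theorem hMinAt_top {sy : ValSymbols L} (hO : IsValued sy (⊤ : ValuationSubring K)) :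
    HMinAt (⊤ : ValuationSubring K) L 0 := by
  intro lam h0 h1 A A' _ _ X _
  obtain ⟨l, rfl⟩ := (⊤ : ValuationSubring K).valuation_surjective lam
  have hl0 : l ≠ 0 := (Valuation.ne_zero_iff _).1 h0
  refine ⟨{0}, Set.finite_singleton 0, ?_, ?_⟩
  · have h2 : Df L (fun w : Fin 1 → K => w 0 = 0) := Df.eq (DfF.var 0) (hO.vf.fzero)
    exact Set.Definable.mono h2 (Set.empty_subset A)
  · intro x x' hx
    have h2 := hx 0 rfl
    rw [sub_zero, sub_zero, rv_eq_iff hl0 h1] at h2
    have hxx : x = x' := by
      rcases h2 with ⟨h3, h4⟩ | h2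
      · rw [h3, h4]
      · by_contra hne
        have h3 : (⊤ : ValuationSubring K).valuation ((x - x')⁻¹) ≤ 1 :=
          ((⊤ : ValuationSubring K).valuation_le_one_iff _).2 (ValuationSubring.mem_top _)
        have h4 : (⊤ : ValuationSubring K).valuation x ≤ 1 :=
          ((⊤ : ValuationSubring K).valuation_le_one_iff _).2 (ValuationSubring.mem_top _)
        have h5 : (⊤ : ValuationSubring K).valuation (x - x') < 1 :=
          h2.trans_le (mul_le_one' h1 h4)
        have h6 : x - x' ≠ 0 := sub_ne_zero.2 hne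
        have h7 : (⊤ : ValuationSubring K).valuation ((x - x')⁻¹ * (x - x')) < 1 := by
          rw [map_mul]
          exact (mul_le_of_le_one_left' h3).trans_lt h5
        rw [inv_mul_cancel₀ h6, map_one] at h7
        exact lt_irrefl _ h7
    rw [hxx]

/-- coarse 0-h-minimality implies 0-h-minimality. -/
theorem hMin_of_coars {sy : ValSymbols L} {T : L.Theory} (h : HCoarsMin sy T 0) :
    HMin sy T 0 := by
  intro K _ _ O hKT hO
  by_cases htop : O = ⊤
  · subst htop
    exact hMinAt_top hO
  let _ : CoLang.{u}.Structure K := coStr O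
  have h1 : HMinAt O (L.sum CoLang.{u}) 0 :=
    h K O hKT hO O le_rfl htop hO.char_zero K O inferInstance (isValued_co hO hO.char_zero)
  have hr : ∀ (n : ℕ) (r : (L.sum CoLang.{u}).Relations n),
      Df L (fun w : Fin n → K => RelMap r w) := by
    intro n r
    rcases r with r | r
    · exact df_rel (L := L) r
    · cases r
      have h2 : Df L (fun w : Fin 1 → K => RelMap sy.ring ![w 0]) := df_rel1' _ (DfF.var _)
      refine h2.congr fun w => ?_
      rw [hO.ring]
      rfl
  have hX : RVX L (L.sum CoLang.{u}) O.valuation := by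
    refine ⟨fun n f => ?_, fun n r => Or.inl (hr n r)⟩
    rcases f with f | f
    · exact df_fun (L := L) f
    · exact f.elim
  intro lam h0 hl A A' hA' hA'0 X hXd
  obtain ⟨k, n, ξ, ζ, Y, hζ, hY, hXY⟩ := hXd
  obtain ⟨C, hC, hCd, hCp⟩ := h1 lam h0 hl A A' hA' hA'0 X ⟨k, n, ξ, ζ, Y, hζ,
    hY.map_expansion (LHom.sumInl : L →ᴸ L.sum CoLang.{u}), hXY⟩
  exact ⟨C, hC, definable_down hX hr hCd, hCp⟩

end main

end Pool.Agent.R611.CO
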